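import Pool.Agent.Q23.ZQ.Rep
import Pool.Agent.Q4.ZI.Eul
import Pool.Agent.Q4.ZI.Loc

/-!
# Small orbits of finite 2-groups and the kernel of the action
-/

open scoped Manifold ContDiff

namespace Q23.ZQ

open Q4.ZI Module

/-- an invariant finite set all of whose orbits have size divisible by `q` -/
theorem card_orb {A : Type} [Group A] [Finite A] {X : Type} [DecidableEq X] [MulAction A X]
    (q : ℕ) (K : Finset X) (hinv : ∀ (g : A), ∀ s ∈ K, g • s ∈ K)
    (hq : ∀ s ∈ K, q ∣ (MulAction.stabilizer A s).index) : (q : ℤ) ∣ (K.card : ℤ) := by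
  classical
  let act : MulAction A {s // s ∈ K} :=
    { smul := fun g s => ⟨g • s.1, hinv g s.1 s.2⟩
      one_smul := fun s => Subtype.ext (one_smul A s.1)
      mul_smul := fun g h s => Subtype.ext (mul_smul g h s.1) }
  have hst : ∀ s : {s // s ∈ K}, MulAction.stabilizer A s = MulAction.stabilizer A s.1 := by
    intro s
    ext g
    rw [MulAction.mem_stabilizer_iff, MulAction.mem_stabilizer_iff]
    exact Subtype.ext_iff
  have e := MulAction.selfEquivSigmaOrbits' A {s // s ∈ K}
  have h1 : Nat.card {s // s ∈ K} = ∑ o : MulAction.orbitRel.Quotient A {s // s ∈ K},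
      Nat.card o.orbit := by
    rw [Nat.card_congr e, Nat.card_sigma]
  have h2 : q ∣ Nat.card {s // s ∈ K} := by
    rw [h1]
    refine Finset.dvd_sum fun o _ => ?_
    obtain ⟨s, rfl⟩ := Quotient.exists_rep o
    have h3 : MulAction.orbitRel.Quotient.orbit (Quotient.mk _ s) = MulAction.orbit A s := rfl
    rw [h3, Nat.card_coe_set_eq, ← MulAction.index_stabilizer, hst]
    exact hq s.1 s.2
  have hc : Nat.card {s // s ∈ K} = K.card := by simp
  rw [hc] at h2
  exact_mod_cast h2

/-- a subgroup of small index with a fixed point -/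
theorem fixk (A : Type) [Group A] [Finite A] (hA : IsPGroup 2 A) (M : Type) [TopologicalSpace M]
    [MulAction A M] (k : ℕ)
    (h : (∃ x : M, (MulAction.orbit A x).ncard ≤ 2 ^ k) ∨
      ∃ T : Tri A M, ¬ (2 : ℤ) ^ (k + 1) ∣ T.chi) :
    ∃ (B : Subgroup A) (x : M), B.index ≤ 2 ^ k ∧ ∀ g ∈ B, g • x = x := by
  rcases h with ⟨x, hx⟩ | ⟨T, hT⟩
  · exact ⟨MulAction.stabilizer A x, x, by rwa [MulAction.index_stabilizer], fun g hg => hg⟩
  let := T.fin
  let := T.dec
  let := T.act
  let actF : MulAction A (Finset T.V) :=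
    { smul := fun g s => s.image fun v => g • v
      one_smul := fun s => by
        change s.image (fun v => (1 : A) • v) = s
        simp
      mul_smul := fun g h s => by
        change s.image (fun v => (g * h) • v) = (s.image fun v => h • v).image fun v => g • v
        rw [Finset.image_image]
        congr 1
        funext v
        exact mul_smul g h v }
  have hsm : ∀ (g : A) (s : Finset T.V), g • s = s.image fun v => g • v := fun _ _ => rfl
  have hinv : ∀ (g : A), ∀ s ∈ T.K, g • s ∈ T.K := by
    intro g s hs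
    exact T.inv g s hs
  have hcard : ∀ (g : A) (s : Finset T.V), (g • s).card = s.card := by
    intro g s
    rw [hsm]
    exact Finset.card_image_of_injective s (MulAction.injective g)
  by_cases hfix : ∃ s ∈ T.K, (MulAction.stabilizer A s).index ≤ 2 ^ k
  · obtain ⟨s, hs, hsi⟩ := hfix
    have hne := T.nonempty s hs
    have hpos : (0 : ℝ) < s.card := by exact_mod_cast hne.card_pos
    let w : T.V → ℝ := fun v => if v ∈ s then (s.card : ℝ)⁻¹ else 0
    have hw0 : ∀ v, 0 ≤ w v := by
      intro v
      simp only [w]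
      split_ifs
      · positivity
      · exact le_rfl
    have hw1 : ∑ v, w v = 1 := by
      simp only [w]
      rw [Finset.sum_ite_mem, Finset.univ_inter, Finset.sum_const, nsmul_eq_mul,
        mul_inv_cancel₀ hpos.ne']
    have hws : Finset.univ.filter (fun v => w v ≠ 0) = s := by
      ext v
      simp only [Finset.mem_filter, Finset.mem_univ, true_and, w]
      constructor
      · intro h
        by_contra hv
        rw [if_neg hv] at h
        exact h rfl
      · intro h
        rw [if_pos h]
        exact inv_ne_zero hpos.ne'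
    have hws' : Finset.univ.filter (fun v => w v ≠ 0) ∈ T.K := by rw [hws]; exact hs
    refine ⟨MulAction.stabilizer A s, T.e ⟨w, hw0, hw1, hws'⟩, hsi, fun g hg => ?_⟩
    refine (T.equiv g ⟨w, hw0, hw1, hws'⟩ ⟨w, hw0, hw1, hws'⟩ fun v => ?_).symm
    have hgv : g • v ∈ s ↔ v ∈ s := by
      have h1 : g • s = s := hg
      rw [hsm] at h1
      constructor
      · intro h
        rw [← h1, Finset.mem_image] at h
        obtain ⟨v', hv', e⟩ := h
        rw [← MulAction.injective g e]
        exact hv'
      · intro h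
        rw [← h1]
        exact Finset.mem_image_of_mem _ h
    change (if g • v ∈ s then (s.card : ℝ)⁻¹ else 0) = if v ∈ s then (s.card : ℝ)⁻¹ else 0
    by_cases hv : v ∈ s
    · rw [if_pos hv, if_pos (hgv.2 hv)]
    · rw [if_neg hv, if_neg fun h => hv (hgv.1 h)]
  · exfalso
    push Not at hfix
    have hdiv : ∀ s ∈ T.K, 2 ^ (k + 1) ∣ (MulAction.stabilizer A s).index := by
      intro s hs
      obtain ⟨n, hn⟩ := hA.index (MulAction.stabilizer A s)
      have h1 := hfix s hs
      rw [hn] at h1 ⊢
      exact pow_dvd_pow 2 ((Nat.pow_lt_pow_iff_right (by norm_num)).1 h1)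
    apply hT
    have hchi : T.chi = ((T.K.filter fun s => Odd s.card).card : ℤ) -
        ((T.K.filter fun s => ¬ Odd s.card).card : ℤ) := by
      unfold Tri.chi
      rw [← Finset.sum_filter_add_sum_filter_not T.K fun s => Odd s.card]
      have e1 : ∑ s ∈ T.K.filter fun s => Odd s.card, (-1 : ℤ) ^ (s.card + 1) =
          ∑ s ∈ T.K.filter fun s => Odd s.card, (1 : ℤ) := by
        refine Finset.sum_congr rfl fun s hs => ?_
        rw [Finset.mem_filter] at hs
        exact (Odd.add_one hs.2).neg_one_pow
      have e2 : ∑ s ∈ T.K.filter fun s => ¬ Odd s.card, (-1 : ℤ) ^ (s.card + 1) =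
          ∑ s ∈ T.K.filter fun s => ¬ Odd s.card, (-1 : ℤ) := by
        refine Finset.sum_congr rfl fun s hs => ?_
        rw [Finset.mem_filter, Nat.not_odd_iff_even] at hs
        exact (Even.add_one hs.2).neg_one_pow
      rw [e1, e2]
      simp only [Finset.sum_const, nsmul_eq_mul, mul_one, mul_neg]
      ring
    rw [hchi]
    have hq : ((2 ^ (k + 1) : ℕ) : ℤ) = (2 : ℤ) ^ (k + 1) := by push_cast; rfl
    rw [← hq]
    refine dvd_sub (card_orb (A := A) _ _ ?_ ?_) (card_orb (A := A) _ _ ?_ ?_)
    · intro g s hs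
      rw [Finset.mem_filter] at hs ⊢
      exact ⟨hinv g s hs.1, by rw [hcard]; exact hs.2⟩
    · intro s hs
      exact hdiv s (Finset.mem_of_mem_filter s hs)
    · intro g s hs
      rw [Finset.mem_filter] at hs ⊢
      exact ⟨hinv g s hs.1, by rw [hcard]; exact hs.2⟩
    · intro s hs
      exact hdiv s (Finset.mem_of_mem_filter s hs)

theorem relIndex_le {G : Type} [Group G] (H K : Subgroup G) (h : H.index ≠ 0) :
    H.relIndex K ≤ H.index := by
  have h1 : H.relIndex ⊤ ≠ 0 := by rwa [Subgroup.relIndex_top_right]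
  have h2 := Subgroup.relIndex_le_of_le_right (H := H) (le_top : K ≤ ⊤) h1
  rwa [Subgroup.relIndex_top_right] at h2

/-- images of subgroups of small index -/
theorem card_map {P G : Type} [Group P] [Group G] [Finite G] (z : P →* G) (Q : Subgroup P)
    (hQ : Q.index ≠ 0) : Nat.card z.range ≤ Nat.card (Q.map z) * Q.index := by
  have h1 : (Q.map z.rangeRestrict).index ∣ Q.index :=
    Subgroup.index_map_dvd Q z.rangeRestrict_surjective
  have h2 := (Q.map z.rangeRestrict).card_mul_index
  have h3 : Nat.card (Q.map z.rangeRestrict) = Nat.card (Q.map z) := by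
    have e : Q.map z = (Q.map z.rangeRestrict).map z.range.subtype := by
      rw [Subgroup.map_map]
      rfl
    rw [e]
    exact Nat.card_congr ((Q.map z.rangeRestrict).equivMapOfInjective z.range.subtype
      z.range.subtype_injective).toEquiv
  rw [← h2, h3]
  exact Nat.mul_le_mul_left _ (Nat.le_of_dvd (Nat.pos_of_ne_zero hQ) h1)

end Q23.ZQ
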