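import Mathlib

/-!
# Real representations of small dimension of finite 2-groups with many squares or quaternion pairs
-/

namespace Q23.ZQ

open Module

section

variable {A : Type} [Group A] {V : Type} [AddCommGroup V] [Module ℝ V]

/-- invariant subspaces -/
def Inv (ρ : A →* (V →ₗ[ℝ] V)) (W : Submodule ℝ V) : Prop := ∀ a : A, ∀ v ∈ W, ρ a v ∈ W

theorem exists_min [FiniteDimensional ℝ V] (ρ : A →* (V →ₗ[ℝ] V)) (U : Submodule ℝ V)
    (hU : U ≠ ⊥) (hUi : Inv ρ U) :
    ∃ W : Submodule ℝ V, W ≤ U ∧ W ≠ ⊥ ∧ Inv ρ W ∧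
      ∀ W' : Submodule ℝ V, W' ≤ W → Inv ρ W' → W' = ⊥ ∨ W' = W := by
  classical
  have hex : ∃ d : ℕ, ∃ W : Submodule ℝ V, W ≤ U ∧ W ≠ ⊥ ∧ Inv ρ W ∧ finrank ℝ W = d :=
    ⟨_, U, le_rfl, hU, hUi, rfl⟩
  obtain ⟨W, h1, h2, h3, h4⟩ := Nat.find_spec hex
  refine ⟨W, h1, h2, h3, fun W' hW' hi => ?_⟩
  by_cases hb : W' = ⊥
  · exact Or.inl hb
  · right
    have h5 := Nat.find_min' hex ⟨W', hW'.trans h1, hb, hi, rfl⟩
    rw [← h4] at h5
    exact Submodule.eq_of_le_of_finrank_le hW' h5

/-- the restriction of the representation to an invariant subspace -/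
def res (ρ : A →* (V →ₗ[ℝ] V)) (W : Submodule ℝ V) (h : Inv ρ W) : A →* (W →ₗ[ℝ] W) where
  toFun a := (ρ a).restrict (h a)
  map_one' := by
    ext v
    simp
  map_mul' a b := by
    ext v
    simp

/-- the representation on the quotient by an invariant subspace -/
def quo (ρ : A →* (V →ₗ[ℝ] V)) (W : Submodule ℝ V) (h : Inv ρ W) :
    A →* ((V ⧸ W) →ₗ[ℝ] (V ⧸ W)) where
  toFun a := W.mapQ W (ρ a) (h a)
  map_one' := by
    ext v
    simp
  map_mul' a b := by
    ext v
    simp

end

/-- every representation in which some element of `Ω` acts as `-1` has dimension at least `c` -/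
def Big (A : Type) [Group A] (Ω : Subgroup A) (c : ℕ) : Prop :=
  ∀ g ∈ Ω, ∀ (W : Type) [AddCommGroup W] [Module ℝ W] [FiniteDimensional ℝ W] [Nontrivial W]
    (σ : A →* (W →ₗ[ℝ] W)), σ g = -1 → c ≤ finrank ℝ W

theorem lin_aux (c : ℕ) (hc : 0 < c) (A : Type) [Group A] [Finite A] (d : ℕ) :
    ∀ (V : Type) [AddCommGroup V] [Module ℝ V] [FiniteDimensional ℝ V], finrank ℝ V = d →
    ∀ (ρ : A →* (V →ₗ[ℝ] V)) (Ω : Subgroup A), (∀ g ∈ Ω, g * g = 1) →
    (∀ g ∈ Ω, ∀ a : A, g * a = a * g) → Big A Ω c →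
    ∃ Ω' : Subgroup A, Ω' ≤ Ω ∧ (∀ g ∈ Ω', ρ g = 1) ∧
      Nat.card Ω ≤ Nat.card Ω' * 2 ^ (finrank ℝ V / c) := by
  induction d using Nat.strong_induction_on with
  | _ d ih =>
    intro V _ _ _ hd ρ Ω hΩ2 hΩc hbig
    by_cases htriv : ∀ g ∈ Ω, ρ g = 1
    · exact ⟨Ω, le_rfl, htriv, Nat.le_mul_of_pos_right _ (by positivity)⟩
    · push Not at htriv
      obtain ⟨g0, hg0, hg0n⟩ := htriv
      have hmul : ∀ (a b : A) (v : V), ρ a (ρ b v) = ρ (a * b) v := by
        intro a b v
        rw [map_mul]
        rfl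
      have hinv : ∀ g ∈ Ω, ∀ v : V, ρ g (ρ g v) = v := by
        intro g hg v
        rw [hmul, hΩ2 g hg, map_one]
        rfl
      have hcom : ∀ g ∈ Ω, ∀ (a : A) (v : V), ρ g (ρ a v) = ρ a (ρ g v) := by
        intro g hg a v
        rw [hmul, hmul, hΩc g hg]
      let U := LinearMap.range (ρ g0 - 1)
      have hU : U ≠ ⊥ := by
        intro h
        exact hg0n (sub_eq_zero.1 (LinearMap.range_eq_bot.1 h))
      have hUi : Inv ρ U := by
        rintro a _ ⟨v, rfl⟩
        refine ⟨ρ a v, ?_⟩
        change ρ g0 (ρ a v) - ρ a v = ρ a (ρ g0 v - v)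
        rw [map_sub, hcom g0 hg0]
      obtain ⟨W, hWU, hW0, hWi, hmin⟩ := exists_min ρ U hU hUi
      have hdich : ∀ g ∈ Ω, (∀ w ∈ W, ρ g w = w) ∨ (∀ w ∈ W, ρ g w = -w) := by
        intro g hg
        let K : Submodule ℝ V := W ⊓ LinearMap.ker (ρ g - 1)
        have hKi : Inv ρ K := by
          rintro a v ⟨hv1, hv2⟩
          refine ⟨hWi a v hv1, ?_⟩
          have h2 : ρ g v - v = 0 := hv2
          change ρ g (ρ a v) - ρ a v = 0
          rw [hcom g hg, ← map_sub, h2, map_zero]
        rcases hmin K inf_le_left hKi with h | h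
        · right
          intro w hw
          have h1 : ρ g w + w ∈ K := by
            refine ⟨W.add_mem (hWi g w hw) hw, ?_⟩
            change ρ g (ρ g w + w) - (ρ g w + w) = 0
            rw [map_add, hinv g hg]
            abel
          rw [h, Submodule.mem_bot] at h1
          exact eq_neg_of_add_eq_zero_left h1
        · left
          intro w hw
          have h1 : w ∈ K := by rw [h]; exact hw
          exact sub_eq_zero.1 h1.2
      have hg0W : ∀ w ∈ W, ρ g0 w = -w := by
        intro w hw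
        obtain ⟨u, hu⟩ := hWU hw
        have hu' : ρ g0 u - u = w := hu
        rw [← hu', map_sub, hinv g0 hg0]
        abel
      have hWn : Nontrivial W := Submodule.nontrivial_iff_ne_bot.2 hW0
      have hcW : c ≤ finrank ℝ W := by
        refine hbig g0 hg0 W (res ρ W hWi) ?_
        ext v
        exact hg0W v v.2
      -- the kernel of the action on W
      have hWne : ∃ w ∈ W, w ≠ 0 := Submodule.exists_mem_ne_zero_of_ne_bot hW0
      obtain ⟨w0, hw0, hw0n⟩ := hWne
      have hno : ∀ g, (∀ w ∈ W, ρ g w = w) → (∀ w ∈ W, ρ g w = -w) → False := by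
        intro g h1 h2
        have h3 : w0 = -w0 := (h1 w0 hw0).symm.trans (h2 w0 hw0)
        have h4 : (2 : ℝ) • w0 = 0 := by
          rw [two_smul]
          nth_rewrite 1 [h3]
          exact neg_add_cancel w0
        rcases smul_eq_zero.1 h4 with h | h
        · norm_num at h
        · exact hw0n h
      let Ω1 : Subgroup A :=
        { carrier := {g | g ∈ Ω ∧ ∀ w ∈ W, ρ g w = w}
          one_mem' := ⟨Ω.one_mem, fun w _ => by rw [map_one]; rfl⟩
          mul_mem' := by
            rintro x y ⟨hx, hx'⟩ ⟨hy, hy'⟩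
            exact ⟨Ω.mul_mem hx hy, fun w hw => by rw [← hmul, hy' w hw, hx' w hw]⟩
          inv_mem' := by
            rintro x ⟨hx, hx'⟩
            refine ⟨Ω.inv_mem hx, fun w hw => ?_⟩
            nth_rewrite 1 [← hx' w hw]
            rw [hmul, inv_mul_cancel, map_one]
            rfl }
      have hΩ1 : Ω1 ≤ Ω := fun g hg => hg.1
      have hc1 : Nat.card Ω ≤ Nat.card Ω1 * 2 := by
        classical
        let f : Ω → Ω1 × Bool := fun g =>
          if h : ∀ w ∈ W, ρ g.1 w = w then (⟨g.1, g.2, h⟩, true)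
          else (⟨g0 * g.1, Ω.mul_mem hg0 g.2, fun w hw => by
            rw [← hmul]
            rcases hdich g.1 g.2 with h' | h'
            · exact absurd h' h
            · rw [h' w hw, map_neg, hg0W w hw, neg_neg]⟩, false)
        have hf : Function.Injective f := by
          intro g g' hgg
          by_cases h : ∀ w ∈ W, ρ g.1 w = w
          · by_cases h' : ∀ w ∈ W, ρ g'.1 w = w
            · simp only [f, dif_pos h, dif_pos h', Prod.mk.injEq, Subtype.mk.injEq, and_true] at hgg
              exact Subtype.ext hgg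
            · simp only [f, dif_pos h, dif_neg h', Prod.mk.injEq] at hgg
              exact absurd hgg.2 (by simp)
          · by_cases h' : ∀ w ∈ W, ρ g'.1 w = w
            · simp only [f, dif_neg h, dif_pos h', Prod.mk.injEq] at hgg
              exact absurd hgg.2 (by simp)
            · simp only [f, dif_neg h, dif_neg h', Prod.mk.injEq, Subtype.mk.injEq, and_true] at hgg
              exact Subtype.ext (mul_left_cancel hgg)
        have h1 := Nat.card_le_card_of_injective f hf
        rwa [Nat.card_prod, Nat.card_eq_fintype_card (α := Bool), Fintype.card_bool] at h1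
      have hfr : finrank ℝ (V ⧸ W) + finrank ℝ W = finrank ℝ V :=
        Submodule.finrank_quotient_add_finrank W
      obtain ⟨Ω', hΩ', htr, hc2⟩ := ih (finrank ℝ (V ⧸ W)) (by omega) (V ⧸ W) rfl (quo ρ W hWi) Ω1
        (fun g hg => hΩ2 g hg.1) (fun g hg => hΩc g hg.1) (fun g hg => hbig g hg.1)
      refine ⟨Ω', hΩ'.trans hΩ1, fun g hg => ?_, ?_⟩
      · ext v
        have h1 : quo ρ W hWi g (W.mkQ v) = W.mkQ v := by rw [htr g hg]; rfl
        have h2 : W.mkQ (ρ g v) = W.mkQ v := h1
        have h3 : ρ g v - v ∈ W := by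
          rw [← Submodule.ker_mkQ W, LinearMap.mem_ker, map_sub, h2, sub_self]
        have h4 : ρ g (ρ g v - v) = ρ g v - v := (hΩ' hg).2 _ h3
        rw [map_sub, hinv g (hΩ' hg).1] at h4
        have h5 : (2 : ℝ) • (ρ g v - v) = 0 := by
          rw [two_smul]
          nth_rewrite 1 [← h4]
          abel
        rcases smul_eq_zero.1 h5 with h | h
        · norm_num at h
        · exact sub_eq_zero.1 h
      · have hdiv : finrank ℝ (V ⧸ W) / c + 1 ≤ finrank ℝ V / c := by
          rw [← Nat.add_div_right _ hc]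
          exact Nat.div_le_div_right (by omega)
        calc Nat.card Ω ≤ Nat.card Ω1 * 2 := hc1
          _ ≤ (Nat.card Ω' * 2 ^ (finrank ℝ (V ⧸ W) / c)) * 2 := Nat.mul_le_mul_right _ hc2
          _ = Nat.card Ω' * 2 ^ (finrank ℝ (V ⧸ W) / c + 1) := by rw [mul_assoc, ← pow_succ]
          _ ≤ Nat.card Ω' * 2 ^ (finrank ℝ V / c) :=
            Nat.mul_le_mul_left _ (Nat.pow_le_pow_right (by norm_num) hdiv)

/-- complex structures -/
theorem two_le {W : Type} [AddCommGroup W] [Module ℝ W] [FiniteDimensional ℝ W] [Nontrivial W]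
    (J : W →ₗ[ℝ] W) (hJ : J * J = -1) : 2 ≤ finrank ℝ W := by
  obtain ⟨w, hw⟩ := exists_ne (0 : W)
  have hJ' : ∀ v, J (J v) = -v := fun v => by
    have := congrArg (fun f : W →ₗ[ℝ] W => f v) hJ
    exact this
  have h1 : LinearIndependent ℝ ![w, J w] := by
    rw [LinearIndependent.pair_iff]
    intro s t hst
    have h2 : s • J w - t • w = 0 := by
      have := congrArg J hst
      rw [map_add, map_smul, map_smul, hJ', map_zero, smul_neg] at this
      rw [sub_eq_add_neg]
      exact this
    have h3 : (s * s + t * t) • w = 0 := by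
      have h4 : s • (s • w + t • J w) - t • (s • J w - t • w) = 0 := by
        rw [hst, h2, smul_zero, smul_zero, sub_zero]
      rw [← h4]
      module
    rcases smul_eq_zero.1 h3 with h | h
    · constructor <;> nlinarith [mul_self_nonneg s, mul_self_nonneg t]
    · exact absurd h hw
  have h2 := h1.fintype_card_le_finrank
  simpa using h2

/-- quaternionic structures -/
theorem four_le {W : Type} [AddCommGroup W] [Module ℝ W] [FiniteDimensional ℝ W] [Nontrivial W]
    (J K : W →ₗ[ℝ] W) (hJ : J * J = -1) (hK : K * K = -1) (hJK : J * K = -(K * J)) :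
    4 ≤ finrank ℝ W := by
  obtain ⟨w, hw⟩ := exists_ne (0 : W)
  have hJ' : ∀ v, J (J v) = -v := fun v => by
    have := congrArg (fun f : W →ₗ[ℝ] W => f v) hJ
    exact this
  have hK' : ∀ v, K (K v) = -v := fun v => by
    have := congrArg (fun f : W →ₗ[ℝ] W => f v) hK
    exact this
  have hKJ' : ∀ v, K (J v) = -J (K v) := fun v => by
    have := congrArg (fun f : W →ₗ[ℝ] W => f v) hJK
    have h2 : J (K v) = -K (J v) := this
    rw [h2, neg_neg]
  have h1 : LinearIndependent ℝ ![w, J w, K w, J (K w)] := by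
    rw [Fintype.linearIndependent_iff]
    intro g hg
    simp only [Fin.sum_univ_four, Matrix.cons_val_zero, Matrix.cons_val_one, Matrix.cons_val] at hg
    set a := g 0
    set b := g 1
    set c := g 2
    set d := g 3
    have e1 : a • J w - b • w + c • J (K w) - d • K w = 0 := by
      have := congrArg J hg
      simp only [map_add, map_smul, hJ', map_zero, map_neg] at this
      rw [← this]
      module
    have e2 : a • K w - b • J (K w) - c • w + d • J w = 0 := by
      have := congrArg K hg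
      simp only [map_add, map_smul, hK', hKJ', map_zero, map_neg] at this
      rw [← this]
      module
    have e3 : a • J (K w) + b • K w - c • J w - d • w = 0 := by
      have := congrArg J e2
      simp only [map_add, map_sub, map_smul, hJ', map_zero, map_neg] at this
      rw [← this]
      module
    have h3 : (a * a + b * b + c * c + d * d) • w = 0 := by
      have h4 : a • (a • w + b • J w + c • K w + d • J (K w)) -
          b • (a • J w - b • w + c • J (K w) - d • K w) -
          c • (a • K w - b • J (K w) - c • w + d • J w) -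
          d • (a • J (K w) + b • K w - c • J w - d • w) = 0 := by
        rw [hg, e1, e2, e3]
        simp
      rw [← h4]
      module
    rcases smul_eq_zero.1 h3 with h | h
    · have ha : a = 0 := by nlinarith [mul_self_nonneg a, mul_self_nonneg b, mul_self_nonneg c, mul_self_nonneg d]
      have hb : b = 0 := by nlinarith [mul_self_nonneg a, mul_self_nonneg b, mul_self_nonneg c, mul_self_nonneg d]
      have hc : c = 0 := by nlinarith [mul_self_nonneg a, mul_self_nonneg b, mul_self_nonneg c, mul_self_nonneg d]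
      have hd : d = 0 := by nlinarith [mul_self_nonneg a, mul_self_nonneg b, mul_self_nonneg c, mul_self_nonneg d]
      intro i
      fin_cases i
      · exact ha
      · exact hb
      · exact hc
      · exact hd
    · exact absurd h hw
  have h2 := h1.fintype_card_le_finrank
  simpa using h2

theorem big_one (A : Type) [Group A] (Ω : Subgroup A) : Big A Ω 1 := by
  intro g hg W _ _ _ _ σ h
  exact finrank_pos

theorem big_two (A : Type) [Group A] (Ω : Subgroup A) (h : ∀ g ∈ Ω, ∃ a : A, a * a = g) :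
    Big A Ω 2 := by
  intro g hg W _ _ _ _ σ hσ
  obtain ⟨a, ha⟩ := h g hg
  refine two_le (σ a) ?_
  rw [← map_mul, ha, hσ]

theorem big_four (A : Type) [Group A] (Ω : Subgroup A)
    (h : ∀ g ∈ Ω, ∃ a b : A, a * a = g ∧ b * b = g ∧ a * b = g * (b * a)) :
    Big A Ω 4 := by
  intro g hg W _ _ _ _ σ hσ
  obtain ⟨a, b, ha, hb, hab⟩ := h g hg
  refine four_le (σ a) (σ b) ?_ ?_ ?_
  · rw [← map_mul, ha, hσ]
  · rw [← map_mul, hb, hσ]
  · rw [← map_mul, hab, map_mul, map_mul, hσ, neg_mul, one_mul]

theorem lin (c : ℕ) (hc : 0 < c) (A : Type) [Group A] [Finite A]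
    (V : Type) [AddCommGroup V] [Module ℝ V] [FiniteDimensional ℝ V]
    (ρ : A →* (V →ₗ[ℝ] V)) (Ω : Subgroup A) (h1 : ∀ g ∈ Ω, g * g = 1)
    (h2 : ∀ g ∈ Ω, ∀ a : A, g * a = a * g) (h3 : Big A Ω c) :
    ∃ Ω' : Subgroup A, Ω' ≤ Ω ∧ (∀ g ∈ Ω', ρ g = 1) ∧
      Nat.card Ω ≤ Nat.card Ω' * 2 ^ (finrank ℝ V / c) :=
  lin_aux c hc A _ V rfl ρ Ω h1 h2 h3

end Q23.ZQ
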