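import Pool.Agent.Q23.ZQ.Red

/-!
# Homomorphisms of the elementary group which are trivial on matrices of level two
-/

open Matrix

namespace Q23.ZQ

section

variable {O : Type} [Ring O]

theorem conj_col {n : ℕ} [NeZero n] (c : Fin n) (s : Fin n → O) (hs : s c = 0) (hs0 : s 0 = 0)
    (g : GL (Fin n) O) (i : Fin n) :
    (rv c s hs * g * (rv c s hs)⁻¹).1 i 0 = g.1 i 0 + if i = c then ∑ d, s d * g.1 d 0 else 0 := by
  rw [rv_inv, mul_rv, Pi.neg_apply, hs0, neg_zero, mul_zero, add_zero, rv_mul]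

theorem red [Module.Finite ℤ O] {m : ℕ} (g : GL (Fin (m + 3)) O) (hg : g ∈ C2 O (m + 3)) :
    ∃ h ∈ Eg O (m + 3), ∃ x ∈ E2 O (m + 3), ∃ y ∈ E2 O (m + 3),
      (∀ a, (x * (h * g * h⁻¹) * y).1 a 0 = if a = 0 then 1 else 0) ∧
      (∀ b, (x * (h * g * h⁻¹) * y).1 0 b = if b = 0 then 1 else 0) := by
  obtain ⟨X, hX⟩ := hg
  have hg1 : ∀ a b, g.1 a b = (if a = b then 1 else 0) + 2 * X a b := by
    intro a b
    rw [hX, Matrix.add_apply, Matrix.one_apply, Matrix.smul_apply, nsmul_eq_mul, Nat.cast_ofNat]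
  have h00 : g.1 0 0 = 1 + 2 * X 0 0 := by rw [hg1, if_pos rfl]
  have h20 : g.1 2 0 = 2 * X 2 0 := by
    rw [hg1, if_neg, zero_add]
    intro h
    have h1 := congrArg Fin.val h
    rw [Fin.val_two, Fin.val_zero] at h1
    omega
  obtain ⟨t, p, q, hpq⟩ := sr_col O (X 0 0) (g.1 1 0) (m + 1) (fun a => g.1 a.succ.succ 0)
    ⟨g⁻¹.1 0 0, g⁻¹.1 0 1, fun a => g⁻¹.1 0 a.succ.succ, by
      have h1 : (g⁻¹.1 * g.1) 0 0 = 1 := by
        rw [← Units.val_mul, inv_mul_cancel, Units.val_one, Matrix.one_apply_eq]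
      rw [Matrix.mul_apply, Fin.sum_univ_succ, Fin.sum_univ_succ, ← add_assoc, h00] at h1
      exact h1⟩
  -- first step
  set s1 : Fin (m + 3) → O := Fin.cons 0 (Fin.cons 0 t) with hs1
  have h11 : s1 1 = 0 := rfl
  have h10 : s1 0 = 0 := rfl
  set g1 := rv 1 s1 h11 * g * (rv 1 s1 h11)⁻¹ with hg1d
  have c1 : ∀ i, g1.1 i 0 = g.1 i 0 + if i = 1 then ∑ a, t a * g.1 a.succ.succ 0 else 0 := by
    intro i
    rw [hg1d, conj_col 1 s1 h11 h10]
    congr 2
    rw [Fin.sum_univ_succ, Fin.sum_univ_succ]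
    simp [hs1]
  have hne10 : (0 : Fin (m + 3)) ≠ 1 := fun h => absurd (congrArg Fin.val h) (by simp)
  have hne20 : (2 : Fin (m + 3)) ≠ 0 := by
    intro h
    have h1 := congrArg Fin.val h
    rw [Fin.val_two, Fin.val_zero] at h1
    omega
  have hne21 : (2 : Fin (m + 3)) ≠ 1 := by
    intro h
    have h1 := congrArg Fin.val h
    rw [Fin.val_two, Fin.val_one] at h1
    omega
  have hsucc : ∀ a : Fin (m + 1), (a.succ.succ : Fin (m + 3)) ≠ 1 := by
    intro a h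
    exact absurd (congrArg Fin.val h) (by simp)
  -- second step
  set s2 : Fin (m + 3) → O := Fin.cons (2 * ((X 0 0 - X 2 0) * p))
    (Fin.cons (2 * ((X 0 0 - X 2 0) * q)) 0) with hs2
  have h22 : s2 2 = 0 := rfl
  set g2 := rv 2 s2 h22 * g1 with hg2d
  have c2 : ∀ i, g2.1 i 0 = g1.1 i 0 + if i = 2 then 2 * (X 0 0 - X 2 0) else 0 := by
    intro i
    rw [hg2d, rv_mul]
    congr 2
    rw [Fin.sum_univ_succ, Fin.sum_univ_succ]
    have e0 : s2 0 = 2 * ((X 0 0 - X 2 0) * p) := rfl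
    have e1 : s2 (Fin.succ 0) = 2 * ((X 0 0 - X 2 0) * q) := rfl
    have e2 : ∀ a : Fin (m + 1), s2 a.succ.succ = 0 := fun _ => rfl
    rw [e0, e1]
    simp only [e2, zero_mul, Finset.sum_const_zero, add_zero]
    rw [c1 0, if_neg hne10, add_zero]
    have e3 : g1.1 (Fin.succ 0) 0 = g.1 1 0 + ∑ a, t a * g.1 a.succ.succ 0 := by
      have := c1 1
      rw [if_pos rfl] at this
      exact this
    rw [e3, h00]
    calc 2 * ((X 0 0 - X 2 0) * p) * (1 + 2 * X 0 0) +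
          2 * ((X 0 0 - X 2 0) * q) * (g.1 1 0 + ∑ a, t a * g.1 a.succ.succ 0)
        = 2 * ((X 0 0 - X 2 0) * (p * (1 + 2 * X 0 0) +
            q * (g.1 1 0 + ∑ a, t a * g.1 a.succ.succ 0))) := by
          simp only [mul_assoc, ← mul_add]
      _ = 2 * (X 0 0 - X 2 0) := by rw [hpq, mul_one]
  -- third step
  set h3 := te (0 : Fin (m + 3)) 2 hne20.symm (-1 : O) with hh3
  set g3 := h3 * g2 * h3⁻¹ with hg3d
  have c3 : g3.1 0 0 = 1 := by
    have h30 : (Pi.single 2 (-1) : Fin (m + 3) → O) 0 = 0 := by rw [Pi.single_eq_of_ne hne20.symm]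
    have h4 : g3.1 0 0 = g2.1 0 0 + if (0 : Fin (m + 3)) = 0 then
        ∑ d, (Pi.single 2 (-1) : Fin (m + 3) → O) d * g2.1 d 0 else 0 :=
      conj_col 0 (Pi.single 2 (-1)) h30 h30 g2 0
    rw [h4, if_pos rfl, Finset.sum_eq_single 2]
    · rw [Pi.single_eq_same, c2, c2, if_neg hne20.symm, if_pos rfl, c1, c1, if_neg hne10,
        if_neg hne21, h00, h20]
      noncomm_ring
    · intro b _ hb
      rw [Pi.single_eq_of_ne hb, zero_mul]
    · intro h
      exact absurd (Finset.mem_univ _) h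
  have hn2 : rv 2 s2 h22 ∈ E2 O (m + 3) := by
    refine rv_mem2 2 s2 h22 fun b => ?_
    refine Fin.cases ?_ (fun b => ?_) b
    · exact ⟨_, rfl⟩
    · refine Fin.cases ?_ (fun b => ?_) b
      · exact ⟨_, rfl⟩
      · exact ⟨0, by rw [mul_zero]; rfl⟩
  have hg3 : g3 ∈ C2 O (m + 3) := by
    refine C2_conj _ _ (Subgroup.mul_mem _ (E2_le_C2 hn2) (C2_conj _ _ ⟨X, hX⟩))
  obtain ⟨Y, hY⟩ := hg3
  have hg3' : ∀ a b, g3.1 a b = (if a = b then 1 else 0) + 2 * Y a b := by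
    intro a b
    rw [hY, Matrix.add_apply, Matrix.one_apply, Matrix.smul_apply, nsmul_eq_mul, Nat.cast_ofNat]
  -- fourth step
  set s4 : Fin (m + 3) → O := fun a => if a = 0 then 0 else 2 * -Y a 0 with hs4
  have h40 : s4 0 = 0 := by simp [hs4]
  set g4 := cv 0 s4 h40 * g3 with hg4d
  have c4 : ∀ a, g4.1 a 0 = if a = 0 then 1 else 0 := by
    intro a
    rw [hg4d, cv_mul, c3, mul_one]
    by_cases ha : a = 0
    · subst ha
      rw [c3, h40, add_zero, if_pos rfl]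
    · rw [hg3', if_neg ha]
      simp only [hs4, if_neg ha]
      noncomm_ring
  have hn4 : cv 0 s4 h40 ∈ E2 O (m + 3) := by
    refine cv_mem2 0 s4 h40 fun b => ?_
    by_cases hb : b = 0
    · exact ⟨0, by rw [hb, h40, mul_zero]⟩
    · exact ⟨-Y b 0, by simp only [hs4, if_neg hb]⟩
  have hg4 : g4 ∈ C2 O (m + 3) := Subgroup.mul_mem _ (E2_le_C2 hn4) ⟨Y, hY⟩
  obtain ⟨Z, hZ⟩ := hg4
  have hg4' : ∀ a b, g4.1 a b = (if a = b then 1 else 0) + 2 * Z a b := by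
    intro a b
    rw [hZ, Matrix.add_apply, Matrix.one_apply, Matrix.smul_apply, nsmul_eq_mul, Nat.cast_ofNat]
  -- fifth step
  set s5 : Fin (m + 3) → O := fun b => if b = 0 then 0 else 2 * -Z 0 b with hs5
  have h50 : s5 0 = 0 := by simp [hs5]
  have hn5 : rv 0 s5 h50 ∈ E2 O (m + 3) := by
    refine rv_mem2 0 s5 h50 fun b => ?_
    by_cases hb : b = 0
    · exact ⟨0, by rw [hb, h50, mul_zero]⟩
    · exact ⟨-Z 0 b, by simp only [hs5, if_neg hb]⟩
  have hh3m : h3 ∈ Eg O (m + 3) := te_mem _ _ _ _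
  refine ⟨h3 * rv 1 s1 h11, Subgroup.mul_mem _ hh3m (rv_mem _ _ _),
    cv 0 s4 h40 * (h3 * rv 2 s2 h22 * h3⁻¹), Subgroup.mul_mem _ hn4 (E2_conj _ _ hh3m hn2),
    rv 0 s5 h50, hn5, ?_⟩
  have key : cv 0 s4 h40 * (h3 * rv 2 s2 h22 * h3⁻¹) *
      (h3 * rv 1 s1 h11 * g * (h3 * rv 1 s1 h11)⁻¹) * rv 0 s5 h50 = g4 * rv 0 s5 h50 := by
    rw [hg4d, hg3d, hg2d, hg1d]
    group
  rw [key]
  constructor
  · intro a
    rw [mul_rv, h50, mul_zero, add_zero, c4]
  · intro b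
    rw [mul_rv, c4, if_pos rfl, one_mul]
    by_cases hb : b = 0
    · subst hb
      rw [c4, h50, add_zero]
    · rw [hg4', if_neg (Ne.symm hb), if_neg hb]
      simp only [hs5, if_neg hb]
      noncomm_ring

end

end Q23.ZQ
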