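import Pool.Agent.Q23.ZQ.Ker

/-!
# Diagonal matrices over rings, possibly non-commutative
-/

open Matrix
open scoped Manifold ContDiff

namespace Q23.ZQ

open Q4.ZI

/-- the group generated by (in the cases below: consisting of) the diagonal matrices in `Γ` with
entries in `S` -/
def DD {O : Type} [Ring O] {n : ℕ} (Γ : Subgroup (GL (Fin n) O)) (S : Set O) : Subgroup Γ :=
  Subgroup.closure {x | ∃ u : Fin n → O, (∀ a, u a ∈ S) ∧ x.1.1 = diagonal u}

section

variable {O : Type} [Ring O] {n : ℕ}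

/-- diagonal matrices as a homomorphism -/
def dg : (Fin n → Oˣ) →* GL (Fin n) O :=
  (Units.map ((Matrix.diagonalRingHom (Fin n) O : (Fin n → O) →+* _) :
    (Fin n → O) →* Matrix (Fin n) (Fin n) O)).comp
    (MulEquiv.piUnits (M := fun _ : Fin n => O)).symm.toMonoidHom

theorem dg_val (u : Fin n → Oˣ) : (dg u).1 = diagonal (fun i => (u i : O)) := rfl

theorem dg_inj : Function.Injective (dg : (Fin n → Oˣ) →* GL (Fin n) O) := by
  intro u w h
  have h1 := congrArg Units.val h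
  rw [dg_val, dg_val] at h1
  have h2 := Matrix.diagonal_injective h1
  funext i
  exact Units.ext (congrFun h2 i)

/-- the diagonal matrices with entries in a group of units -/
def Du (Γ : Subgroup (GL (Fin n) O)) (μ : Subgroup Oˣ) : Subgroup Γ :=
  ((Subgroup.pi Set.univ (fun _ : Fin n => μ)).map dg).subgroupOf Γ

theorem mem_Du {Γ : Subgroup (GL (Fin n) O)} {μ : Subgroup Oˣ} {x : Γ} :
    x ∈ Du Γ μ ↔ ∃ w : Fin n → Oˣ, (∀ a, w a ∈ μ) ∧ dg w = x.1 := by
  unfold Du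
  rw [Subgroup.mem_subgroupOf, Subgroup.mem_map]
  constructor
  · rintro ⟨w, hw, e⟩
    exact ⟨w, fun a => hw a (Set.mem_univ a), e⟩
  · rintro ⟨w, hw, e⟩
    exact ⟨w, fun a _ => hw a, e⟩

theorem DD_eq (Γ : Subgroup (GL (Fin n) O)) (μ : Subgroup Oˣ) (S : Set O)
    (hS : ∀ u : O, u ∈ S ↔ ∃ v ∈ μ, (v : O) = u) : DD Γ S = Du Γ μ := by
  apply le_antisymm
  · unfold DD
    rw [Subgroup.closure_le]
    rintro x ⟨u, hu, hx⟩
    have h1 : ∀ a, ∃ v ∈ μ, (v : O) = u a := fun a => (hS _).1 (hu a)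
    choose v hv1 hv2 using h1
    refine mem_Du.2 ⟨v, hv1, Units.ext ?_⟩
    rw [dg_val, hx]
    congr 1
    funext a
    exact hv2 a
  · intro x hx
    obtain ⟨w, hw, e⟩ := mem_Du.1 hx
    exact Subgroup.subset_closure ⟨fun a => (w a : O), fun a => (hS _).2 ⟨w a, hw a, rfl⟩, by
      rw [← e]; rfl⟩

theorem Du_finite (Γ : Subgroup (GL (Fin n) O)) (μ : Subgroup Oˣ) [Finite μ] :
    Finite (Du Γ μ) := by
  have h1 : ∀ x : Du Γ μ, ∃ w : Fin n → Oˣ, (∀ a, w a ∈ μ) ∧ dg w = x.1.1 := fun x => mem_Du.1 x.2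
  choose w hw1 hw2 using h1
  refine Finite.of_injective (fun x : Du Γ μ => fun a : Fin n => (⟨w x a, hw1 x a⟩ : μ)) ?_
  intro x y hxy
  apply Subtype.ext
  apply Subtype.ext
  rw [← hw2 x, ← hw2 y]
  congr 1
  funext a
  exact congrArg Subtype.val (congrFun hxy a)

theorem Du_pgroup (Γ : Subgroup (GL (Fin n) O)) (μ : Subgroup Oˣ) (h4 : ∀ u ∈ μ, u ^ 4 = 1) :
    IsPGroup 2 (Du Γ μ) := by
  intro x
  obtain ⟨w, hw, e⟩ := mem_Du.1 x.2
  refine ⟨2, ?_⟩
  apply Subtype.ext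
  apply Subtype.ext
  change x.1.1 ^ (2 ^ 2) = 1
  rw [← e, ← map_pow]
  have : w ^ (2 ^ 2) = 1 := by
    funext a
    exact h4 _ (hw a)
  rw [this, map_one]

/-- powers -/
def pw (u : Oˣ) : (Fin n → Multiplicative ℤ) →* (Fin n → Oˣ) :=
  MonoidHom.pi fun a => (zpowersHom Oˣ u).comp (Pi.evalMonoidHom _ a)

theorem pw_apply (u : Oˣ) (p : Fin n → Multiplicative ℤ) (a : Fin n) :
    pw u p a = u ^ (p a).toAdd := rfl

theorem neg_one_comm (t : ℤ) (x : Oˣ) : (-1 : Oˣ) ^ t * x = x * (-1) ^ t :=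
  ((Commute.neg_one_left x).zpow_left t).eq

theorem neg_one_sq (t : ℤ) : (-1 : Oˣ) ^ t * (-1) ^ t = 1 := by
  rw [← _root_.zpow_add, ← two_mul, _root_.zpow_mul, zpow_ofNat, pow_two, neg_one_mul, neg_neg,
    _root_.one_zpow]

theorem sq_zpow (i : Oˣ) (hi : i * i = -1) (m : ℤ) : i ^ m * i ^ m = (-1) ^ m := by
  rw [← (Commute.refl i).mul_zpow, hi]

theorem quat_zpow (i j : Oˣ) (hi : i * i = -1) (hj : j * j = -1) (hij : i * j = -(j * i)) (m : ℤ) :
    i ^ m * j ^ m = (-1) ^ m * (j ^ m * i ^ m) := by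
  have key : ∀ (x : Oˣ), x * x = -1 → ∀ t : ℤ, x ^ (2 * t) = (-1) ^ t := by
    intro x hx t
    rw [_root_.zpow_mul, zpow_ofNat, pow_two, hx]
  rcases Int.even_or_odd' m with ⟨t, rfl | rfl⟩
  · have e : (-1 : Oˣ) ^ (2 * t) = 1 := by
      rw [two_mul, _root_.zpow_add, neg_one_sq]
    rw [key i hi, key j hj, e, one_mul]
  · have e : (-1 : Oˣ) ^ (2 * t + 1) = -1 := by
      rw [_root_.zpow_add, two_mul, _root_.zpow_add, neg_one_sq, one_mul, zpow_one]
    rw [e, _root_.zpow_add, _root_.zpow_add, key i hi, key j hj, zpow_one, zpow_one]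
    have e1 : (-1 : Oˣ) ^ t * i * ((-1) ^ t * j) = i * j := by
      rw [neg_one_comm, mul_assoc, ← mul_assoc ((-1 : Oˣ) ^ t), neg_one_sq, one_mul]
    have e2 : (-1 : Oˣ) ^ t * j * ((-1) ^ t * i) = j * i := by
      rw [neg_one_comm, mul_assoc, ← mul_assoc ((-1 : Oˣ) ^ t), neg_one_sq, one_mul]
    rw [e1, e2, hij, neg_one_mul]

theorem neg_one_cases (t : ℤ) : (-1 : Oˣ) ^ t = 1 ∨ (-1 : Oˣ) ^ t = -1 := by
  rcases Int.even_or_odd' t with ⟨s, rfl | rfl⟩
  · left
    rw [two_mul, _root_.zpow_add, neg_one_sq]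
  · right
    rw [_root_.zpow_add, two_mul, _root_.zpow_add, neg_one_sq, one_mul, zpow_one]

/-- the homomorphism to the group of diagonal matrices -/
def hm (Γ : Subgroup (GL (Fin n) O)) (μ : Subgroup Oˣ)
    (hΓ : ∀ w : Fin n → Oˣ, (∀ a, w a ∈ μ) → dg w ∈ Γ) (u : Oˣ) (hu : u ∈ μ) :
    (Fin n → Multiplicative ℤ) →* Du Γ μ :=
  MonoidHom.codRestrict (MonoidHom.codRestrict (dg.comp (pw u)) Γ
    (fun p => hΓ _ fun a => by rw [pw_apply]; exact μ.zpow_mem hu _)) (Du Γ μ)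
    (fun p => mem_Du.2 ⟨pw u p, fun a => by rw [pw_apply]; exact μ.zpow_mem hu _, rfl⟩)

theorem hm_val (Γ : Subgroup (GL (Fin n) O)) (μ : Subgroup Oˣ)
    (hΓ : ∀ w : Fin n → Oˣ, (∀ a, w a ∈ μ) → dg w ∈ Γ) (u : Oˣ) (hu : u ∈ μ)
    (p : Fin n → Multiplicative ℤ) : (hm Γ μ hΓ u hu p).1.1 = dg (pw u p) := rfl

/-- a diagonal matrix with entries `1` and `-1`, both occurring, acts trivially -/
def NS (Γ : Subgroup (GL (Fin n) O)) (M : Type) [MulAction Γ M] : Prop :=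
  ∃ (x : Γ) (ε : Fin n → O), x.1.1 = diagonal ε ∧ (∀ a, ε a = 1 ∨ ε a = -1) ∧ (∃ a, ε a = 1) ∧
    (∃ b, ε b = -1) ∧ ∀ y : M, x • y = y

theorem count (h2 : (2 : O) ≠ 0) (Γ : Subgroup (GL (Fin n) O)) (μ : Subgroup Oˣ) [Finite μ]
    (hΓ : ∀ w : Fin n → Oˣ, (∀ a, w a ∈ μ) → dg w ∈ Γ) (hm1 : -1 ∈ μ) (M : Type) [MulAction Γ M]
    (P' : Subgroup (Fin n → Multiplicative ℤ))
    (hP' : ∀ p ∈ P', ∀ y : M, hm Γ μ hΓ (-1) hm1 p • y = y) (e : ℕ) (he : e + 2 ≤ n)
    (hc : Nat.card (hm Γ μ hΓ (-1) hm1).range ≤ Nat.card (P'.map (hm Γ μ hΓ (-1) hm1)) * 2 ^ e) :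
    NS Γ M := by
  classical
  have := Du_finite Γ μ
  have hne : (1 : Oˣ) ≠ -1 := by
    intro h
    apply h2
    have h1 : (1 : O) = -1 := congrArg Units.val h
    have h3 : (2 : O) = 1 + 1 := one_add_one_eq_two.symm
    rw [h3]
    nth_rewrite 1 [h1]
    exact neg_add_cancel 1
  set z := hm Γ μ hΓ (-1) hm1 with hz
  have hinj : ∀ p q, z p = z q → ∀ a, (-1 : Oˣ) ^ (p a).toAdd = (-1) ^ (q a).toAdd := by
    intro p q h a
    have h1 : (z p).1.1 = (z q).1.1 := by rw [h]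
    rw [hz, hm_val, hm_val] at h1
    exact congrFun (dg_inj h1) a
  have hinj' : ∀ p q, (∀ a, (-1 : Oˣ) ^ (p a).toAdd = (-1) ^ (q a).toAdd) → z p = z q := by
    intro p q h
    apply Subtype.ext
    apply Subtype.ext
    rw [hz, hm_val, hm_val]
    congr 1
    funext a
    exact h a
  -- the size of the range
  have hcard : 2 ^ n ≤ Nat.card z.range := by
    let F : (Fin n → Bool) → z.range := fun f =>
      ⟨z (fun a => Multiplicative.ofAdd (if f a then (1 : ℤ) else 0)), ⟨_, rfl⟩⟩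
    have hF : Function.Injective F := by
      intro f g hfg
      funext a
      have h1 := hinj _ _ (congrArg Subtype.val hfg) a
      simp only [toAdd_ofAdd] at h1
      by_cases hf : f a = true
      · by_cases hg : g a = true
        · rw [hf, hg]
        · rw [if_pos hf, if_neg hg, zpow_one, zpow_zero] at h1
          exact absurd h1.symm hne
      · by_cases hg : g a = true
        · rw [if_neg hf, if_pos hg, zpow_one, zpow_zero] at h1
          exact absurd h1 hne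
        · rw [Bool.not_eq_true] at hf hg
          rw [hf, hg]
    have h1 := Nat.card_le_card_of_injective F hF
    rwa [Nat.card_fun, Nat.card_eq_fintype_card (α := Bool), Fintype.card_bool,
      Nat.card_eq_fintype_card, Fintype.card_fin] at h1
  have h4 : 4 ≤ Nat.card (P'.map z) := by
    have h1 : 2 ^ n ≤ Nat.card (P'.map z) * 2 ^ e := hcard.trans hc
    have h3 : 2 ^ 2 * 2 ^ e ≤ 2 ^ n := by
      rw [← pow_add]
      exact Nat.pow_le_pow_right (by norm_num) (by omega)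
    have h5 := h3.trans h1
    exact Nat.le_of_mul_le_mul_right h5 (by positivity)
  -- a nonscalar element
  obtain ⟨p, hp, a, b, ha, hb⟩ : ∃ p ∈ P', ∃ a b, (-1 : Oˣ) ^ (p a).toAdd = 1 ∧
      (-1 : Oˣ) ^ (p b).toAdd = -1 := by
    by_contra hcon
    push Not at hcon
    have hall : ∀ p ∈ P', (∀ a, (-1 : Oˣ) ^ (p a).toAdd = 1) ∨
        ∀ a, (-1 : Oˣ) ^ (p a).toAdd = -1 := by
      intro p hp
      by_cases h : ∃ a, (-1 : Oˣ) ^ (p a).toAdd = 1
      · obtain ⟨a, ha⟩ := h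
        left
        intro b
        rcases neg_one_cases (O := O) (p b).toAdd with h1 | h1
        · exact h1
        · exact absurd h1 (hcon p hp a b ha)
      · push Not at h
        right
        intro a
        rcases neg_one_cases (O := O) (p a).toAdd with h1 | h1
        · exact absurd h1 (h a)
        · exact h1
    let F : (P'.map z) → Bool := fun g => decide (g = 1)
    have hF : Function.Injective F := by
      rintro ⟨_, p, hp, rfl⟩ ⟨_, q, hq, rfl⟩ h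
      simp only [F, decide_eq_decide] at h
      have hone : ∀ p (hp : p ∈ P'), (⟨z p, p, hp, rfl⟩ : P'.map z) = 1 ↔
          ∀ a, (-1 : Oˣ) ^ (p a).toAdd = 1 := by
        intro p hp
        constructor
        · intro h1 a
          have h3 : z p = z 1 := by rw [map_one]; exact congrArg Subtype.val h1
          rw [hinj _ _ h3 a]
          simp
        · intro h1
          apply Subtype.ext
          change z p = 1
          rw [← map_one z]
          refine hinj' _ _ fun a => ?_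
          rw [h1 a]
          simp
      rw [hone p hp, hone q hq] at h
      apply Subtype.ext
      change z p = z q
      refine hinj' _ _ fun a => ?_
      rcases hall p hp with h1 | h1
      · rw [h1 a, h.1 h1 a]
      · rcases hall q hq with h3 | h3
        · rw [h3 a, h.2 h3 a]
        · rw [h1 a, h3 a]
    have h1 := Nat.card_le_card_of_injective F hF
    rw [Nat.card_eq_fintype_card (α := Bool), Fintype.card_bool] at h1
    omega
  refine ⟨(z p).1, fun a => (((-1 : Oˣ) ^ (p a).toAdd : Oˣ) : O), rfl, fun a => ?_, ⟨a, ?_⟩,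
    ⟨b, ?_⟩, fun y => hP' p hp y⟩
  · change (((-1 : Oˣ) ^ (p a).toAdd : Oˣ) : O) = 1 ∨ (((-1 : Oˣ) ^ (p a).toAdd : Oˣ) : O) = -1
    rcases neg_one_cases (O := O) (p a).toAdd with h1 | h1
    · left
      rw [h1]
      rfl
    · right
      rw [h1]
      rfl
  · change (((-1 : Oˣ) ^ (p a).toAdd : Oˣ) : O) = 1
    rw [ha]
    rfl
  · change (((-1 : Oˣ) ^ (p b).toAdd : Oˣ) : O) = -1
    rw [hb]
    rfl

/-- the kernel of an action of small dimension -/
theorem kerM (h2 : (2 : O) ≠ 0) (Γ : Subgroup (GL (Fin n) O)) (μ : Subgroup Oˣ) [Finite μ]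
    (hμ4 : ∀ u ∈ μ, u ^ 4 = 1)
    (hΓ : ∀ w : Fin n → Oˣ, (∀ a, w a ∈ μ) → dg w ∈ Γ) (hm1 : -1 ∈ μ)
    (S : Set O) (hS : ∀ u : O, u ∈ S ↔ ∃ v ∈ μ, (v : O) = u)
    (E M : Type) [NormedAddCommGroup E] [NormedSpace ℝ E]
    [FiniteDimensional ℝ E] [TopologicalSpace M] [T2Space M] [ConnectedSpace M] [ChartedSpace E M]
    [IsManifold 𝓘(ℝ, E) 1 M] [MulAction Γ M]
    (hsm : ∀ g : Γ, ContMDiff 𝓘(ℝ, E) 𝓘(ℝ, E) 1 (fun y : M => g • y)) (k : ℕ)
    (h : (∃ x : M, (MulAction.orbit (DD Γ S) x).ncard ≤ 2 ^ k) ∨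
      ∃ T : Tri (DD Γ S) M, ¬ (2 : ℤ) ^ (k + 1) ∣ T.chi) :
    (Module.finrank ℝ E + k + 2 ≤ n → NS Γ M) ∧
    (∀ i ∈ μ, i * i = -1 → Module.finrank ℝ E / 2 + k + 2 ≤ n → NS Γ M) ∧
    (∀ i ∈ μ, ∀ j ∈ μ, i * i = -1 → j * j = -1 → i * j = -(j * i) →
      Module.finrank ℝ E / 4 + 2 * k + 2 ≤ n → NS Γ M) := by
  have := Du_finite Γ μ
  rw [DD_eq Γ μ S hS] at h
  have hc : ∀ (p : Fin n → Multiplicative ℤ) (a : Du Γ μ),
      hm Γ μ hΓ (-1) hm1 p * a = a * hm Γ μ hΓ (-1) hm1 p := by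
    intro p a
    obtain ⟨w, hw, e⟩ := mem_Du.1 a.2
    apply Subtype.ext
    apply Subtype.ext
    change dg (pw (-1) p) * a.1.1 = a.1.1 * dg (pw (-1) p)
    rw [← e, ← map_mul, ← map_mul]
    congr 1
    funext b
    exact neg_one_comm _ _
  obtain ⟨k1, k2, k3⟩ := kt E M (Du Γ μ) (fun g => hsm g.1) (Du_pgroup Γ μ hμ4) k h
    (Fin n → Multiplicative ℤ) (hm Γ μ hΓ (-1) hm1)
    (by
      intro p
      apply Subtype.ext
      apply Subtype.ext
      change dg (pw (-1) p) * dg (pw (-1) p) = 1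
      rw [← map_mul]
      have : pw (-1 : Oˣ) p * pw (-1) p = 1 := by
        funext a
        exact neg_one_sq _
      rw [this, map_one]) hc
  have hsq : ∀ i (hi : i ∈ μ), i * i = -1 → ∀ p,
      hm Γ μ hΓ i hi p * hm Γ μ hΓ i hi p = hm Γ μ hΓ (-1) hm1 p := by
    intro i hi hii p
    apply Subtype.ext
    apply Subtype.ext
    change dg (pw i p) * dg (pw i p) = dg (pw (-1) p)
    rw [← map_mul]
    congr 1
    funext a
    exact sq_zpow i hii _
  refine ⟨fun hn => ?_, fun i hi hii hn => ?_, fun i hi j hj hii hjj hij hn => ?_⟩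
  · obtain ⟨P', h4, h5⟩ := k1
    exact count h2 Γ μ hΓ hm1 M P' h4 _ (by omega) h5
  · obtain ⟨P', h4, h5⟩ := k2 (hm Γ μ hΓ i hi) (hsq i hi hii)
    exact count h2 Γ μ hΓ hm1 M P' h4 _ (by omega) h5
  · obtain ⟨P', h4, h5⟩ := k3 (hm Γ μ hΓ i hi) (hm Γ μ hΓ j hj) (hsq i hi hii) (hsq j hj hjj) (by
      intro p
      apply Subtype.ext
      apply Subtype.ext
      change dg (pw i p) * dg (pw j p) = dg (pw (-1) p) * (dg (pw j p) * dg (pw i p))
      rw [← map_mul, ← map_mul, ← map_mul]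
      congr 1
      funext a
      exact quat_zpow i j hii hjj hij _)
    exact count h2 Γ μ hΓ hm1 M P' h4 _ (by omega) h5

end

end Q23.ZQ
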