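import Pool.Agent.Q23.ZQ.Fq
import Pool.Agent.Q23.ZQ.Mat

/-!
# Finite images
-/

open Matrix
open scoped commutatorElement

namespace Q23.ZQ

theorem finite_of_center {G : Type} [Group G] (h : (Subgroup.center G).FiniteIndex)
    (hp : commutator G = ⊤) : Finite G := by
  have : Finite (G ⧸ Subgroup.center G) := Subgroup.finite_quotient_of_finiteIndex
  have hfin : Finite (commutatorSet G) := by
    let f : (G ⧸ Subgroup.center G) × (G ⧸ Subgroup.center G) → G :=
      fun p => ⁅p.1.out, p.2.out⁆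
    have hsub : commutatorSet G ⊆ Set.range f := by
      rintro _ ⟨x, y, rfl⟩
      refine ⟨(QuotientGroup.mk x, QuotientGroup.mk y), ?_⟩
      obtain ⟨z, hz⟩ := QuotientGroup.mk_out_eq_mul (Subgroup.center G) x
      obtain ⟨w, hw⟩ := QuotientGroup.mk_out_eq_mul (Subgroup.center G) y
      have hz' := Subgroup.mem_center_iff.1 z.2
      have hw' := Subgroup.mem_center_iff.1 w.2
      change ⁅(QuotientGroup.mk x : G ⧸ Subgroup.center G).out,
        (QuotientGroup.mk y : G ⧸ Subgroup.center G).out⁆ = ⁅x, y⁆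
      rw [hz, hw, commutatorElement_def, commutatorElement_def]
      have e1 : x * z.1 * (y * w.1) = x * y * (z.1 * w.1) := by
        rw [mul_assoc x, ← mul_assoc z.1, ← hz' y]
        group
      have e2 : (x * z.1)⁻¹ * (y * w.1)⁻¹ = (z.1 * w.1)⁻¹ * (x⁻¹ * y⁻¹) := by
        have h3 : (y * w.1) * (x * z.1) = (y * x) * (z.1 * w.1) := by
          calc (y * w.1) * (x * z.1) = y * (w.1 * x) * z.1 := by group
            _ = y * (x * w.1) * z.1 := by rw [hw' x]
            _ = (y * x) * (w.1 * z.1) := by group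
            _ = (y * x) * (z.1 * w.1) := by rw [hz' w.1]
        rw [← _root_.mul_inv_rev, h3, _root_.mul_inv_rev, _root_.mul_inv_rev y x]
      calc x * z.1 * (y * w.1) * (x * z.1)⁻¹ * (y * w.1)⁻¹
          = x * z.1 * (y * w.1) * ((x * z.1)⁻¹ * (y * w.1)⁻¹) := by group
        _ = x * y * (z.1 * w.1) * ((z.1 * w.1)⁻¹ * (x⁻¹ * y⁻¹)) := by rw [e1, e2]
        _ = x * y * x⁻¹ * y⁻¹ := by group
    exact (Set.finite_range f).subset hsub
  have : Finite (commutator G) := inferInstance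
  rw [hp] at this
  exact Finite.of_equiv _ Subgroup.topEquiv.toEquiv

section

variable {O : Type} [Ring O]

theorem conj_rv {n : ℕ} (a : Fin n) (g : GL (Fin n) O)
    (hg : g.1 *ᵥ Pi.single a 1 = Pi.single a 1) (t : Fin n → O) (ht : t a = 0)
    (ht' : (t ᵥ* g⁻¹.1) a = 0) :
    g * rv a t ht * g⁻¹ = rv a (t ᵥ* g⁻¹.1) ht' := by
  apply Units.ext
  change g.1 * (1 + vecMulVec (Pi.single a 1) t) * g⁻¹.1 =
    1 + vecMulVec (Pi.single a 1) (t ᵥ* g⁻¹.1)
  rw [mul_add, mul_one, add_mul, ← Units.val_mul, mul_inv_cancel, Units.val_one,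
      mul_vecMulVec, vecMulVec_mul, hg]

theorem conj_cv {n : ℕ} (a : Fin n) (g : GL (Fin n) O)
    (hg : Pi.single a 1 ᵥ* g⁻¹.1 = Pi.single a 1) (t : Fin n → O) (ht : t a = 0)
    (ht' : (g.1 *ᵥ t) a = 0) :
    g * cv a t ht * g⁻¹ = cv a (g.1 *ᵥ t) ht' := by
  apply Units.ext
  change g.1 * (1 + vecMulVec t (Pi.single a 1)) * g⁻¹.1 =
    1 + vecMulVec (g.1 *ᵥ t) (Pi.single a 1)
  rw [mul_add, mul_one, add_mul, ← Units.val_mul, mul_inv_cancel, Units.val_one,
      mul_vecMulVec, vecMulVec_mul, hg]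

theorem cv_inv {n : ℕ} (a : Fin n) (t : Fin n → O) (ht : t a = 0) :
    (cv a t ht)⁻¹ = cv a (-t) (by rw [Pi.neg_apply, ht, neg_zero]) := by
  apply inv_eq_of_mul_eq_one_right
  apply Units.ext
  exact (cv a t ht).val_inv

theorem blk {m : ℕ} (g : GL (Fin (m + 3)) O) (hg : g ∈ C2 O (m + 3))
    (hc : ∀ a, g.1 a 0 = if a = 0 then 1 else 0) (hr : ∀ b, g.1 0 b = if b = 0 then 1 else 0)
    (j : Fin (m + 3)) (hj : 0 ≠ j) (c : O) :
    g * te 0 j hj c * g⁻¹ * (te 0 j hj c)⁻¹ ∈ E2 O (m + 3) ∧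
    g * te j 0 hj.symm c * g⁻¹ * (te j 0 hj.symm c)⁻¹ ∈ E2 O (m + 3) := by
  obtain ⟨X, hX⟩ := hg
  obtain ⟨Y, hY⟩ : g⁻¹ ∈ C2 O (m + 3) := Subgroup.inv_mem _ ⟨X, hX⟩
  have hcol : g.1 *ᵥ Pi.single 0 1 = Pi.single 0 1 := by
    rw [mulVec_single_one]
    funext i
    rw [Matrix.col_apply, hc, Pi.single_apply]
  have hrow : Pi.single 0 1 ᵥ* g.1 = Pi.single 0 1 := by
    rw [single_one_vecMul]
    funext i
    rw [Matrix.row_apply, hr, Pi.single_apply]
  have hcoli : g⁻¹.1 *ᵥ Pi.single 0 1 = Pi.single 0 1 := by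
    calc g⁻¹.1 *ᵥ Pi.single 0 1 = g⁻¹.1 *ᵥ (g.1 *ᵥ Pi.single 0 1) := by rw [hcol]
      _ = _ := by rw [mulVec_mulVec, ← Units.val_mul, inv_mul_cancel, Units.val_one, one_mulVec]
  have hrowi : Pi.single 0 1 ᵥ* g⁻¹.1 = Pi.single 0 1 := by
    calc Pi.single 0 1 ᵥ* g⁻¹.1 = (Pi.single 0 1 ᵥ* g.1) ᵥ* g⁻¹.1 := by rw [hrow]
      _ = _ := by rw [vecMul_vecMul, ← Units.val_mul, mul_inv_cancel, Units.val_one, vecMul_one]
  have hci : ∀ a, g⁻¹.1 a 0 = if a = 0 then 1 else 0 := by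
    intro a
    have := congrFun hcoli a
    rw [mulVec_single_one, Matrix.col_apply, Pi.single_apply] at this
    exact this
  constructor
  · have ht : (Pi.single j c : Fin (m + 3) → O) 0 = 0 := by rw [Pi.single_eq_of_ne hj]
    have ht' : ((Pi.single j c : Fin (m + 3) → O) ᵥ* g⁻¹.1) 0 = 0 := by
      change (Pi.single j c : Fin (m + 3) → O) ⬝ᵥ (fun a => g⁻¹.1 a 0) = 0
      rw [single_dotProduct, hci, if_neg (Ne.symm hj), mul_zero]
    have e1 := conj_rv 0 g hcol (Pi.single j c) ht ht'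
    have e2 : te 0 j hj c = rv 0 (Pi.single j c) ht := rfl
    rw [e2, e1, rv_inv, ← rv_add]
    refine rv_mem2 _ _ _ fun b => ⟨c * Y j b, ?_⟩
    change (Pi.single j c : Fin (m + 3) → O) ⬝ᵥ (fun a => g⁻¹.1 a b) +
      -(Pi.single j c : Fin (m + 3) → O) b = _
    rw [single_dotProduct, hY, Matrix.add_apply, Matrix.one_apply, Matrix.smul_apply,
      Pi.single_apply, nsmul_eq_mul, Nat.cast_ofNat]
    by_cases h : j = b
    · rw [if_pos h, if_pos h.symm, mul_add, mul_one]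
      have : c * (2 * Y j b) = 2 * (c * Y j b) := by
        rw [← mul_assoc, ← mul_assoc, mul_two, two_mul]
      rw [this]
      abel
    · rw [if_neg h, if_neg (Ne.symm h), zero_add, neg_zero, add_zero]
      rw [← mul_assoc, ← mul_assoc, mul_two, two_mul]
  · have ht : (Pi.single j c : Fin (m + 3) → O) 0 = 0 := by rw [Pi.single_eq_of_ne hj]
    have ht' : (g.1 *ᵥ (Pi.single j c : Fin (m + 3) → O)) 0 = 0 := by
      change (fun a => g.1 0 a) ⬝ᵥ (Pi.single j c : Fin (m + 3) → O) = 0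
      rw [dotProduct_single, hr, if_neg (Ne.symm hj), zero_mul]
    have e1 := conj_cv 0 g hrowi (Pi.single j c) ht ht'
    have e2 : te j 0 hj.symm c = cv 0 (Pi.single j c) ht := (cv_te j 0 hj.symm c).symm
    rw [e2, e1, cv_inv, ← cv_add]
    refine cv_mem2 _ _ _ fun b => ⟨X b j * c, ?_⟩
    change (fun a => g.1 b a) ⬝ᵥ (Pi.single j c : Fin (m + 3) → O) +
      -(Pi.single j c : Fin (m + 3) → O) b = _
    rw [dotProduct_single, hX, Matrix.add_apply, Matrix.one_apply, Matrix.smul_apply,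
      Pi.single_apply, nsmul_eq_mul, Nat.cast_ofNat]
    by_cases h : b = j
    · rw [if_pos h, if_pos h, add_mul, one_mul, mul_assoc]
      abel
    · rw [if_neg h, if_neg h, zero_add, neg_zero, add_zero, mul_assoc]

theorem te_comm {n : ℕ} (a l b : Fin n) (hal : a ≠ l) (hlb : l ≠ b) (hab : a ≠ b) (c d : O) :
    te a l hal c * te l b hlb d * (te a l hal c)⁻¹ * (te l b hlb d)⁻¹ = te a b hab (c * d) := by
  have hinv : ∀ (x y : Fin n) (h : x ≠ y) (r : O), (te x y h r)⁻¹.1 = 1 + single x y (-r) := by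
    intro x y h r
    have e : (te x y h r)⁻¹ = te x y h (-r) := by
      change (rv x (Pi.single y r) _)⁻¹ = rv x (Pi.single y (-r)) _
      rw [rv_inv]
      congr 1
      rw [Pi.single_neg]
    rw [e, te_val]
  apply Units.ext
  rw [Units.val_mul, Units.val_mul, Units.val_mul, hinv, hinv, te_val, te_val, te_val]
  have s1 : ∀ (x y z : Fin n) (r s : O), (single x y r : Matrix (Fin n) (Fin n) O) * single y z s =
      single x z (r * s) := by
    intro x y z r s
    simp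
  have s0 : ∀ (x y y' z : Fin n) (r s : O), y ≠ y' →
      (single x y r : Matrix (Fin n) (Fin n) O) * single y' z s = 0 := by
    intro x y y' z r s h
    simp [h]
  have sn : ∀ (x y : Fin n) (r : O), (single x y (-r) : Matrix (Fin n) (Fin n) O) =
      - single x y r := by
    intro x y r
    ext p q
    simp only [single, Matrix.of_apply, Matrix.neg_apply]
    split_ifs <;> simp
  simp only [mul_add, add_mul, one_mul, mul_one, s1, s0 _ _ _ _ _ _ hal.symm,
    s0 _ _ _ _ _ _ hab.symm, s0 _ _ _ _ _ _ hlb.symm, zero_mul, mul_neg, sn, neg_mul]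
  abel

end

end Q23.ZQ
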