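import Pool.Agent.Q23.ZQ.Fq2

/-!
# Finite images: the theorem
-/

open Matrix

namespace Q23.ZQ

section

variable {O : Type} [Ring O]

theorem Eg_le_of {m : ℕ} (H : Subgroup (GL (Fin (m + 3)) O))
    (h1 : ∀ (j : Fin (m + 3)) (hj : 0 ≠ j) c, te 0 j hj c ∈ H)
    (h2 : ∀ (j : Fin (m + 3)) (hj : 0 ≠ j) c, te j 0 hj.symm c ∈ H) : Eg O (m + 3) ≤ H := by
  unfold Eg
  rw [Subgroup.closure_le]
  rintro x ⟨a, b, c, hab, e⟩
  have e2 : x = te a b hab c := Units.ext (by rw [e, te_val])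
  rw [e2]
  by_cases ha : 0 = a
  · subst ha
    exact h1 b hab c
  by_cases hb : 0 = b
  · subst hb
    exact h2 a hab.symm c
  have e := te_comm a 0 b (Ne.symm ha) hb hab c 1
  rw [mul_one] at e
  rw [← e]
  exact H.mul_mem (H.mul_mem (H.mul_mem (h2 a ha c) (h1 b hb 1)) (H.inv_mem (h2 a ha c)))
    (H.inv_mem (h1 b hb 1))

/-- centrality -/
theorem central [Module.Finite ℤ O] {m : ℕ} {Q : Type} [Group Q]
    (Γ : Subgroup (GL (Fin (m + 3)) O)) (hΓ : Eg O (m + 3) ≤ Γ) (f : Γ →* Q)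
    (hf : ∀ x : Γ, x.1 ∈ E2 O (m + 3) → f x = 1) (g : Γ) (hg : g.1 ∈ C2 O (m + 3)) (y : Γ)
    (hy : y.1 ∈ Eg O (m + 3)) : f g * f y = f y * f g := by
  obtain ⟨h, hh, x, hx, z, hz, hc, hr⟩ := red g.1 hg
  let h' : Γ := ⟨h, hΓ hh⟩
  let x' : Γ := ⟨x, hΓ (E2_le hx)⟩
  let z' : Γ := ⟨z, hΓ (E2_le hz)⟩
  let k : Γ := x' * (h' * g * h'⁻¹) * z'
  have hk : k.1 = x * (h * g.1 * h⁻¹) * z := rfl
  have hkC : k.1 ∈ C2 O (m + 3) :=
    Subgroup.mul_mem _ (Subgroup.mul_mem _ (E2_le_C2 hx) (C2_conj _ _ hg)) (E2_le_C2 hz)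
  have hfk : f k = f h' * f g * (f h')⁻¹ := by
    change f (x' * (h' * g * h'⁻¹) * z') = _
    rw [map_mul, map_mul, hf x' hx, hf z' hz, one_mul, mul_one, map_mul, map_mul, map_inv]
  let C : Subgroup Γ := (Subgroup.centralizer {f k}).comap f
  have hmemC : ∀ y : Γ, y ∈ C ↔ f k * f y = f y * f k := by
    intro y
    rw [Subgroup.mem_comap, Subgroup.mem_centralizer_iff]
    constructor
    · intro h
      exact h _ rfl
    · rintro h _ rfl
      exact h
  have hC : ∀ y : Γ, k.1 * y.1 * k.1⁻¹ * y.1⁻¹ ∈ E2 O (m + 3) → y ∈ C := by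
    intro y hy
    rw [hmemC]
    have h1 : f (k * y * k⁻¹ * y⁻¹) = 1 := hf _ hy
    rw [map_mul, map_mul, map_mul, map_inv, map_inv, mul_inv_eq_one, mul_inv_eq_iff_eq_mul] at h1
    exact h1
  have hEC : Eg O (m + 3) ≤ C.map Γ.subtype := by
    refine Eg_le_of _ (fun j hj c => ?_) (fun j hj c => ?_)
    · exact ⟨⟨te 0 j hj c, hΓ (te_mem _ _ _ _)⟩, hC _ (blk k.1 hkC hc hr j hj c).1, rfl⟩
    · exact ⟨⟨te j 0 hj.symm c, hΓ (te_mem _ _ _ _)⟩, hC _ (blk k.1 hkC hc hr j hj c).2, rfl⟩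
  have hEC' : ∀ y : Γ, y.1 ∈ Eg O (m + 3) → f k * f y = f y * f k := by
    intro y hy
    obtain ⟨w, hw, e⟩ := hEC hy
    have : w = y := Subtype.ext e
    rw [← this]
    exact (hmemC w).1 hw
  have h1 := hEC' h' hh
  have h2 : f k = f g := by
    rw [hfk] at h1 ⊢
    have h3 : f h' * f g = f h' * (f h' * f g * (f h')⁻¹) := by
      rw [← h1]
      group
    have h4 := mul_left_cancel h3
    exact h4.symm
  rw [← h2]
  exact hEC' y hy

theorem C2_index [Module.Finite ℤ O] (n : ℕ) : (C2 O n).FiniteIndex := by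
  have hI := two_sided O 2
  have hfin : Finite (O ⧸ Ideal.span {((2 : ℤ) : O)}) := fin_quot O 2 (by norm_num)
  have h1 : Finite (GL (Fin n) O ⧸ C2 O n) := by
    refine Finite.of_injective (fun q : GL (Fin n) O ⧸ C2 O n => fun a b : Fin n =>
      Ideal.Quotient.mk (Ideal.span {((2 : ℤ) : O)}) (q.out.1 a b)) ?_
    intro q r h
    have h2 : ∀ a b, ∃ c : O, r.out.1 a b = q.out.1 a b + 2 * c := by
      intro a b
      have h3 := congrFun (congrFun h a) b
      have h4 := Ideal.Quotient.eq.1 h3.symm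
      obtain ⟨c, hc⟩ := Submodule.mem_span_singleton.1 h4
      refine ⟨c, ?_⟩
      rw [smul_eq_mul] at hc
      have : c * ((2 : ℤ) : O) = 2 * c := by
        push_cast
        rw [mul_two, two_mul]
      rw [← this, hc]
      abel
    choose X hX using h2
    rw [← q.out_eq, ← r.out_eq]
    refine QuotientGroup.eq.2 ⟨(q.out⁻¹).1 * Matrix.of X, ?_⟩
    have h5 : r.out.1 = q.out.1 + (2 : ℕ) • Matrix.of X := by
      ext a b
      rw [hX, Matrix.add_apply, Matrix.smul_apply, nsmul_eq_mul, Nat.cast_ofNat]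
      rfl
    rw [Units.val_mul, h5, mul_add, ← Units.val_mul, inv_mul_cancel, Units.val_one, mul_smul_comm]
  exact Subgroup.finiteIndex_of_finite_quotient

theorem third {m : ℕ} (i j : Fin (m + 3)) : ∃ k : Fin (m + 3), i ≠ k ∧ k ≠ j := by
  have h : ({i, j} : Finset (Fin (m + 3))).card < (Finset.univ : Finset (Fin (m + 3))).card := by
    rw [Finset.card_univ, Fintype.card_fin]
    exact (Finset.card_le_two).trans_lt (by omega)
  obtain ⟨k, -, hk⟩ := Finset.exists_mem_notMem_of_card_lt_card h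
  simp only [Finset.mem_insert, Finset.mem_singleton, not_or] at hk
  exact ⟨k, Ne.symm hk.1, hk.2⟩

/-- the image of the elementary group is finite -/
theorem finE [Module.Finite ℤ O] {m : ℕ} {Q : Type} [Group Q]
    (Γ : Subgroup (GL (Fin (m + 3)) O)) (hΓ : Eg O (m + 3) ≤ Γ) (f : Γ →* Q)
    (hf : ∀ x : Γ, x.1 ∈ E2 O (m + 3) → f x = 1) :
    Finite (((Eg O (m + 3)).subgroupOf Γ).map f) := by
  set E := (Eg O (m + 3)).subgroupOf Γ with hE
  let φ : E →* E.map f := f.subgroupMap E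
  have hφ : Function.Surjective φ := f.subgroupMap_surjective E
  have hC2 : (C2 O (m + 3)).FiniteIndex := C2_index (m + 3)
  have hcen : (Subgroup.center (E.map f)).FiniteIndex := by
    have h1 : ((C2 O (m + 3)).comap (Γ.subtype.comp E.subtype)) ≤
        (Subgroup.center (E.map f)).comap φ := by
      intro g hg
      rw [Subgroup.mem_comap, Subgroup.mem_center_iff]
      intro q
      obtain ⟨y, rfl⟩ := hφ q
      apply Subtype.ext
      exact (central Γ hΓ f hf g.1 hg y.1 y.2).symm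
    have h0 : ((C2 O (m + 3)).comap (Γ.subtype.comp E.subtype)).FiniteIndex := by
      constructor
      rw [Subgroup.index_comap]
      intro h0
      have h2 : ((C2 O (m + 3)).subgroupOf (Γ.subtype.comp E.subtype).range).FiniteIndex :=
        inferInstance
      exact h2.index_ne_zero h0
    have h2 := Subgroup.finiteIndex_of_le h1
    constructor
    rw [← Subgroup.index_comap_of_surjective _ hφ]
    exact h2.index_ne_zero
  refine finite_of_center hcen ?_
  -- perfectness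
  rw [eq_top_iff]
  rintro ⟨_, x, hx, rfl⟩ -
  have h1 : Eg O (m + 3) ≤ (((commutator (E.map f)).comap φ).map E.subtype).map Γ.subtype := by
    refine Eg_le_of _ (fun j hj c => ?_) (fun j hj c => ?_)
    · obtain ⟨k, hk1, hk2⟩ := third (0 : Fin (m + 3)) j
      let A : E := ⟨⟨te 0 k hk1 c, hΓ (te_mem 0 k hk1 c)⟩, te_mem 0 k hk1 c⟩
      let B : E := ⟨⟨te k j hk2 1, hΓ (te_mem k j hk2 1)⟩, te_mem k j hk2 1⟩
      refine ⟨_, ⟨A * B * A⁻¹ * B⁻¹, ?_, rfl⟩, ?_⟩
      · change φ (A * B * A⁻¹ * B⁻¹) ∈ commutator (E.map f)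
        rw [map_mul, map_mul, map_mul, map_inv, map_inv]
        exact Subgroup.commutator_mem_commutator (Subgroup.mem_top _) (Subgroup.mem_top _)
      · have e := te_comm 0 k j hk1 hk2 hj c 1
        rw [mul_one] at e
        exact e
    · obtain ⟨k, hk1, hk2⟩ := third j (0 : Fin (m + 3))
      let A : E := ⟨⟨te j k hk1 c, hΓ (te_mem j k hk1 c)⟩, te_mem j k hk1 c⟩
      let B : E := ⟨⟨te k 0 hk2 1, hΓ (te_mem k 0 hk2 1)⟩, te_mem k 0 hk2 1⟩
      refine ⟨_, ⟨A * B * A⁻¹ * B⁻¹, ?_, rfl⟩, ?_⟩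
      · change φ (A * B * A⁻¹ * B⁻¹) ∈ commutator (E.map f)
        rw [map_mul, map_mul, map_mul, map_inv, map_inv]
        exact Subgroup.commutator_mem_commutator (Subgroup.mem_top _) (Subgroup.mem_top _)
      · have e := te_comm j k 0 hk1 hk2 hj.symm c 1
        rw [mul_one] at e
        exact e
  obtain ⟨_, ⟨w, hw, rfl⟩, hwx⟩ := h1 hx
  have hwx' : w.1 = x := Subtype.ext hwx
  have h2 : φ w ∈ commutator (E.map f) := hw
  have h3 : φ w = ⟨f x, ⟨x, hx, rfl⟩⟩ := by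
    apply Subtype.ext
    change f w.1 = f x
    rw [hwx']
  rw [h3] at h2
  exact h2

/-- diagonal matrices normalize the elementary group -/
theorem dg_conj {n : ℕ} (w : Fin n → Oˣ) (x : GL (Fin n) O) (hx : x ∈ Eg O n) :
    dg w * x * (dg w)⁻¹ ∈ Eg O n := by
  unfold Eg at hx
  refine Subgroup.closure_induction (p := fun x _ => dg w * x * (dg w)⁻¹ ∈ Eg O n) ?_ ?_ ?_ ?_ hx
  · rintro x ⟨a, b, c, hab, e⟩
    refine Subgroup.subset_closure ⟨a, b, w a * c * (w b)⁻¹.1, hab, ?_⟩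
    rw [Units.val_mul, Units.val_mul, e, mul_add, mul_one, add_mul, ← Units.val_mul,
      mul_inv_cancel, Units.val_one]
    congr 1
    rw [← map_inv, dg_val, dg_val]
    ext i j
    rw [Matrix.mul_diagonal, Matrix.diagonal_mul, Matrix.single_apply, Matrix.single_apply]
    split_ifs with h
    · obtain ⟨rfl, rfl⟩ := h
      rfl
    · simp
  · rw [mul_one, mul_inv_cancel]
    exact Subgroup.one_mem _
  · intro x y _ _ h1 h2
    have : dg w * (x * y) * (dg w)⁻¹ = (dg w * x * (dg w)⁻¹) * (dg w * y * (dg w)⁻¹) := by group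
    rw [this]
    exact Subgroup.mul_mem _ h1 h2
  · intro x _ h1
    have : dg w * x⁻¹ * (dg w)⁻¹ = (dg w * x * (dg w)⁻¹)⁻¹ := by group
    rw [this]
    exact Subgroup.inv_mem _ h1

/-- homomorphisms of the group generated by elementary matrices and diagonal matrices -/
theorem finG [Module.Finite ℤ O] {m : ℕ} {Q : Type} [Group Q] (μ : Subgroup Oˣ) [Finite μ]
    (Γ : Subgroup (GL (Fin (m + 3)) O))
    (hΓ : Γ = Eg O (m + 3) ⊔ (Subgroup.pi Set.univ (fun _ : Fin (m + 3) => μ)).map dg)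
    (f : Γ →* Q) (hf : ∀ x : Γ, x.1 ∈ E2 O (m + 3) → f x = 1) : Finite f.range := by
  have hE : Eg O (m + 3) ≤ Γ := by rw [hΓ]; exact le_sup_left
  have hD : (Subgroup.pi Set.univ (fun _ : Fin (m + 3) => μ)).map dg ≤ Γ := by
    rw [hΓ]; exact le_sup_right
  have h1 := finE Γ hE f hf
  have h2 := Du_finite Γ μ
  have key : ∀ x : Γ, ∃ e : Γ, e.1 ∈ Eg O (m + 3) ∧ ∃ d ∈ Du Γ μ, x = e * d := by
    intro x
    have hx : x.1 ∈ Eg O (m + 3) ⊔ (Subgroup.pi Set.univ (fun _ : Fin (m + 3) => μ)).map dg := by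
      rw [← hΓ]; exact x.2
    -- the product set is a subgroup
    let K : Subgroup (GL (Fin (m + 3)) O) :=
      { carrier := {y | ∃ e ∈ Eg O (m + 3),
          ∃ d ∈ (Subgroup.pi Set.univ (fun _ : Fin (m + 3) => μ)).map dg, y = e * d}
        one_mem' := ⟨1, Subgroup.one_mem _, 1, Subgroup.one_mem _, by rw [mul_one]⟩
        mul_mem' := by
          rintro _ _ ⟨e, he, _, ⟨w, hw, rfl⟩, rfl⟩ ⟨e', he', d', hd', rfl⟩
          refine ⟨e * (dg w * e' * (dg w)⁻¹), Subgroup.mul_mem _ he (dg_conj w e' he'),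
            dg w * d', Subgroup.mul_mem _ ⟨w, hw, rfl⟩ hd', ?_⟩
          group
        inv_mem' := by
          rintro _ ⟨e, he, _, ⟨w, hw, rfl⟩, rfl⟩
          refine ⟨dg w⁻¹ * e⁻¹ * (dg w⁻¹)⁻¹, dg_conj w⁻¹ e⁻¹ (Subgroup.inv_mem _ he),
            dg w⁻¹, ⟨w⁻¹, Subgroup.inv_mem _ hw, rfl⟩, ?_⟩
          rw [map_inv]
          group }
    have hK : Eg O (m + 3) ⊔ (Subgroup.pi Set.univ (fun _ : Fin (m + 3) => μ)).map dg ≤ K := by
      refine sup_le ?_ ?_
      · intro e he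
        exact ⟨e, he, 1, Subgroup.one_mem _, by rw [mul_one]⟩
      · intro d hd
        exact ⟨1, Subgroup.one_mem _, d, hd, by rw [one_mul]⟩
    obtain ⟨e, he, d, hd, hed⟩ := hK hx
    refine ⟨⟨e, hE he⟩, he, ⟨d, hD hd⟩, ?_, Subtype.ext hed⟩
    obtain ⟨w, hw, e⟩ := hd
    exact mem_Du.2 ⟨w, fun a => hw a (Set.mem_univ a), e⟩
  have h3 : (f.range : Set Q) ⊆ Set.image2 (fun a b => a * b)
      ((((Eg O (m + 3)).subgroupOf Γ).map f : Subgroup Q) : Set Q)
      (((Du Γ μ).map f : Subgroup Q) : Set Q) := by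
    rintro _ ⟨x, rfl⟩
    obtain ⟨e, he, d, hd, rfl⟩ := key x
    exact ⟨f e, ⟨e, he, rfl⟩, f d, ⟨d, hd, rfl⟩, (map_mul f e d).symm⟩
  have h4 : ((((Eg O (m + 3)).subgroupOf Γ).map f : Subgroup Q) : Set Q).Finite := Set.toFinite _
  have h5 : (((Du Γ μ).map f : Subgroup Q) : Set Q).Finite := by
    rw [Subgroup.coe_map]
    exact (Set.toFinite ((Du Γ μ : Subgroup Γ) : Set Γ)).image f
  exact ((h4.image2 _ h5).subset h3).to_subtype

end

end Q23.ZQ
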