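import Pool.Agent.Q23.ZQ.Fix

/-!
# Diagonal involutions in the kernel of an action of small dimension
-/

open scoped Manifold ContDiff

namespace Q23.ZQ

open Q4.ZI Module

/-- the isotropy argument -/
theorem iso (c : ℕ) (hc : 0 < c) (E M : Type) [NormedAddCommGroup E] [NormedSpace ℝ E]
    [FiniteDimensional ℝ E] [TopologicalSpace M] [T2Space M] [ConnectedSpace M] [ChartedSpace E M]
    [IsManifold 𝓘(ℝ, E) 1 M] (D : Type) [Group D] [Finite D] [MulAction D M]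
    (hsm : ∀ g : D, ContMDiff 𝓘(ℝ, E) 𝓘(ℝ, E) 1 (fun y : M => g • y))
    (B : Subgroup D) (x : M) (hx : ∀ g ∈ B, g • x = x) (Ω : Subgroup D) (hΩB : Ω ≤ B)
    (h1 : ∀ g ∈ Ω, g * g = 1) (h2 : ∀ g ∈ Ω, ∀ a : D, g * a = a * g)
    (h3 : Big B (Ω.subgroupOf B) c) :
    ∃ Ω' : Subgroup D, Ω' ≤ Ω ∧ (∀ g ∈ Ω', ∀ y : M, g • y = y) ∧
      Nat.card Ω ≤ Nat.card Ω' * 2 ^ (finrank ℝ E / c) := by
  obtain ⟨ρ, hρ⟩ := tLoc E M B (fun g => hsm g.1) x (fun g => hx g.1 g.2)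
  obtain ⟨Ω', h4, h5, h6⟩ := lin c hc B E ρ (Ω.subgroupOf B)
    (fun g hg => Subtype.ext (h1 g.1 hg)) (fun g hg a => Subtype.ext (h2 g.1 hg a.1)) h3
  refine ⟨Ω'.map B.subtype, ?_, ?_, ?_⟩
  · rintro _ ⟨g, hg, rfl⟩
    exact h4 hg
  · rintro _ ⟨g, hg, rfl⟩ y
    exact hρ g (h5 g hg) y
  · have e1 : Nat.card (Ω.subgroupOf B) = Nat.card Ω :=
      Nat.card_congr (Subgroup.subgroupOfEquivOfLe hΩB).toEquiv
    have e2 : Nat.card (Ω'.map B.subtype) = Nat.card Ω' :=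
      Nat.card_congr (Ω'.equivMapOfInjective B.subtype B.subtype_injective).toEquiv.symm
    rw [e2, ← e1]
    exact h6

/-- parametrized form -/
theorem isoP (c : ℕ) (hc : 0 < c) (E M : Type) [NormedAddCommGroup E] [NormedSpace ℝ E]
    [FiniteDimensional ℝ E] [TopologicalSpace M] [T2Space M] [ConnectedSpace M] [ChartedSpace E M]
    [IsManifold 𝓘(ℝ, E) 1 M] (D : Type) [Group D] [Finite D] [MulAction D M]
    (hsm : ∀ g : D, ContMDiff 𝓘(ℝ, E) 𝓘(ℝ, E) 1 (fun y : M => g • y))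
    (B : Subgroup D) (x : M) (hx : ∀ g ∈ B, g • x = x) (P : Type) [Group P] (z : P →* D)
    (hz1 : ∀ p, z p * z p = 1) (hz2 : ∀ p a, z p * a = a * z p) (Q : Subgroup P)
    (hQB : ∀ p ∈ Q, z p ∈ B) (h3 : Big B ((Q.map z).subgroupOf B) c) (r : ℕ) (hQ : Q.index ≠ 0)
    (hr : Q.index ≤ r) :
    ∃ P' : Subgroup P, (∀ p ∈ P', ∀ y : M, z p • y = y) ∧
      Nat.card z.range ≤ Nat.card (P'.map z) * (r * 2 ^ (finrank ℝ E / c)) := by
  obtain ⟨Ω', h4, h5, h6⟩ := iso c hc E M D hsm B x hx (Q.map z)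
    (by rintro _ ⟨p, hp, rfl⟩; exact hQB p hp)
    (by rintro _ ⟨p, hp, rfl⟩; exact hz1 p)
    (by rintro _ ⟨p, hp, rfl⟩; exact hz2 p) h3
  have e : (Ω'.comap z).map z = Ω' := by
    rw [Subgroup.map_comap_eq, inf_eq_right]
    refine h4.trans ?_
    rintro _ ⟨p, hp, rfl⟩
    exact ⟨p, rfl⟩
  refine ⟨Ω'.comap z, fun p hp y => h5 (z p) hp y, ?_⟩
  rw [e]
  calc Nat.card z.range ≤ Nat.card (Q.map z) * Q.index := card_map z Q hQ
    _ ≤ (Nat.card Ω' * 2 ^ (finrank ℝ E / c)) * r := Nat.mul_le_mul h6 hr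
    _ = _ := by ring

/-- the three cases -/
theorem kt (E M : Type) [NormedAddCommGroup E] [NormedSpace ℝ E]
    [FiniteDimensional ℝ E] [TopologicalSpace M] [T2Space M] [ConnectedSpace M] [ChartedSpace E M]
    [IsManifold 𝓘(ℝ, E) 1 M] (D : Type) [Group D] [Finite D] [MulAction D M]
    (hsm : ∀ g : D, ContMDiff 𝓘(ℝ, E) 𝓘(ℝ, E) 1 (fun y : M => g • y))
    (hD : IsPGroup 2 D) (k : ℕ)
    (h : (∃ x : M, (MulAction.orbit D x).ncard ≤ 2 ^ k) ∨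
      ∃ T : Tri D M, ¬ (2 : ℤ) ^ (k + 1) ∣ T.chi)
    (P : Type) [Group P] (z : P →* D)
    (hz1 : ∀ p, z p * z p = 1) (hz2 : ∀ p a, z p * a = a * z p) :
    (∃ P' : Subgroup P, (∀ p ∈ P', ∀ y : M, z p • y = y) ∧
      Nat.card z.range ≤ Nat.card (P'.map z) * 2 ^ (k + finrank ℝ E)) ∧
    (∀ c1 : P →* D, (∀ p, c1 p * c1 p = z p) →
      ∃ P' : Subgroup P, (∀ p ∈ P', ∀ y : M, z p • y = y) ∧
      Nat.card z.range ≤ Nat.card (P'.map z) * 2 ^ (k + finrank ℝ E / 2)) ∧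
    (∀ c1 c2 : P →* D, (∀ p, c1 p * c1 p = z p) → (∀ p, c2 p * c2 p = z p) →
      (∀ p, c1 p * c2 p = z p * (c2 p * c1 p)) →
      ∃ P' : Subgroup P, (∀ p ∈ P', ∀ y : M, z p • y = y) ∧
      Nat.card z.range ≤ Nat.card (P'.map z) * 2 ^ (2 * k + finrank ℝ E / 4)) := by
  obtain ⟨B, x, hB, hx⟩ := fixk D hD M k h
  have hB0 : B.index ≠ 0 := Subgroup.index_ne_zero_of_finite
  have hco : ∀ f : P →* D, (B.comap f).index ≠ 0 ∧ (B.comap f).index ≤ 2 ^ k := by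
    intro f
    rw [Subgroup.index_comap]
    refine ⟨?_, (relIndex_le B f.range hB0).trans hB⟩
    intro h0
    have := Subgroup.relIndex_ne_zero_trans (H := B) (K := ⊤) (L := ⊤)
    have h1 : (B.subgroupOf f.range).index = 0 := h0
    exact Subgroup.index_ne_zero_of_finite h1
  refine ⟨?_, fun c1 h1 => ?_, fun c1 c2 h1 h2 h12 => ?_⟩
  · obtain ⟨P', h4, h5⟩ := isoP 1 one_pos E M D hsm B x hx P z hz1 hz2 (B.comap z)
      (fun p hp => hp) (big_one _ _) (2 ^ k) (hco z).1 (hco z).2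
    refine ⟨P', h4, ?_⟩
    rw [pow_add, ← Nat.div_one (finrank ℝ E)]
    exact h5
  · have hz : ∀ p ∈ B.comap c1, z p ∈ B := by
      intro p hp
      rw [← h1]
      exact B.mul_mem hp hp
    obtain ⟨P', h4, h5⟩ := isoP 2 two_pos E M D hsm B x hx P z hz1 hz2 (B.comap c1)
      hz (big_two _ _ (by
        rintro ⟨g, hgB⟩ ⟨p, hp, hpg⟩
        refine ⟨⟨c1 p, hp⟩, Subtype.ext ?_⟩
        change c1 p * c1 p = g
        rw [h1]
        exact hpg)) (2 ^ k) (hco c1).1 (hco c1).2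
    refine ⟨P', h4, ?_⟩
    rw [pow_add]
    exact h5
  · have hz : ∀ p ∈ B.comap c1 ⊓ B.comap c2, z p ∈ B := by
      intro p hp
      rw [← h1]
      exact B.mul_mem hp.1 hp.1
    have hi0 : (B.comap c1 ⊓ B.comap c2).index ≠ 0 := by
      have i1 : (B.comap c1).FiniteIndex := ⟨(hco c1).1⟩
      have i2 : (B.comap c2).FiniteIndex := ⟨(hco c2).1⟩
      exact Subgroup.FiniteIndex.index_ne_zero
    have hi1 : (B.comap c1 ⊓ B.comap c2).index ≤ 2 ^ k * 2 ^ k :=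
      Subgroup.index_inf_le.trans (Nat.mul_le_mul (hco c1).2 (hco c2).2)
    obtain ⟨P', h4, h5⟩ := isoP 4 (by norm_num) E M D hsm B x hx P z hz1 hz2
      (B.comap c1 ⊓ B.comap c2) hz (big_four _ _ (by
        rintro ⟨g, hgB⟩ ⟨p, hp, hpg⟩
        have hpg' : z p = g := hpg
        refine ⟨⟨c1 p, hp.1⟩, ⟨c2 p, hp.2⟩, Subtype.ext ?_, Subtype.ext ?_, Subtype.ext ?_⟩
        · change c1 p * c1 p = g
          rw [h1, hpg']
        · change c2 p * c2 p = g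
          rw [h2, hpg']
        · change c1 p * c2 p = g * (c2 p * c1 p)
          rw [h12, hpg'])) (2 ^ k * 2 ^ k) hi0 hi1
    refine ⟨P', h4, ?_⟩
    have e : 2 ^ (2 * k + finrank ℝ E / 4) = 2 ^ k * 2 ^ k * 2 ^ (finrank ℝ E / 4) := by
      rw [pow_add, two_mul, pow_add]
    rw [e]
    exact h5

end Q23.ZQ
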