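import Pool.Agent.Q23.ZQ.Fq3

/-!
# Actions of elementary groups over rings with quaternions
-/

open Matrix
open scoped Manifold ContDiff

namespace Q23.ZQ

open Q4.ZI

/-- the group generated by the elementary matrices and the diagonal matrices with entries in `S` -/
def Gam (O : Type) [Ring O] (S : Set O) (n : ℕ) : Subgroup (GL (Fin n) O) :=
  Subgroup.closure ({x | ∃ (a b : Fin n) (c : O), a ≠ b ∧ x.1 = 1 + Matrix.single a b c} ∪
    {x | ∃ u : Fin n → O, (∀ a, u a ∈ S) ∧ x.1 = diagonal u})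

section

variable {O : Type} [Ring O] {n : ℕ}

theorem Gam_eq (μ : Subgroup Oˣ) (S : Set O) (hS : ∀ u : O, u ∈ S ↔ ∃ v ∈ μ, (v : O) = u) :
    Gam O S n = Eg O n ⊔ (Subgroup.pi Set.univ (fun _ : Fin n => μ)).map dg := by
  unfold Gam Eg
  rw [Subgroup.closure_union]
  congr 1
  apply le_antisymm
  · rw [Subgroup.closure_le]
    rintro x ⟨u, hu, hx⟩
    have h1 : ∀ a, ∃ v ∈ μ, (v : O) = u a := fun a => (hS _).1 (hu a)
    choose v hv1 hv2 using h1
    refine ⟨v, fun a _ => hv1 a, Units.ext ?_⟩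
    rw [dg_val, hx]
    congr 1
    funext a
    exact hv2 a
  · rintro _ ⟨w, hw, rfl⟩
    exact Subgroup.subset_closure ⟨fun a => (w a : O),
      fun a => (hS _).2 ⟨w a, hw a (Set.mem_univ a), rfl⟩, rfl⟩

/-- a normal subgroup which contains a nonscalar diagonal matrix with entries `1`, `-1` contains
the matrices of level two -/
theorem lvl (hn : 3 ≤ n) (Γ : Subgroup (GL (Fin n) O)) (hΓ : Eg O n ≤ Γ) (N : Subgroup Γ)
    (hN : N.Normal) (z : Γ) (hz : z ∈ N) (ε : Fin n → O) (hzε : z.1.1 = diagonal ε)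
    (hε : ∀ a, ε a = 1 ∨ ε a = -1) (i j : Fin n) (hi : ε i = 1) (hj : ε j = -1) (hij : i ≠ j)
    (x : Γ) (hx : x.1 ∈ E2 O n) : x ∈ N := by
  let TT : ∀ (a b : Fin n) (h : a ≠ b) (c : O), Γ := fun a b h c =>
    ⟨te a b h c, hΓ (te_mem a b h c)⟩
  have hTc : ∀ (a l b : Fin n) (hal : a ≠ l) (hlb : l ≠ b) (hab : a ≠ b) (c d : O),
      TT a l hal c * TT l b hlb d * (TT a l hal c)⁻¹ * (TT l b hlb d)⁻¹ = TT a b hab (c * d) :=
    fun a l b hal hlb hab c d => Subtype.ext (te_comm a l b hal hlb hab c d)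
  have hcom : ∀ a b : Γ, a ∈ N → a * b * a⁻¹ * b⁻¹ ∈ N := by
    intro a b ha
    rw [mul_assoc, mul_assoc, ← mul_assoc b]
    exact N.mul_mem ha (hN.conj_mem _ (N.inv_mem ha) _)
  have hcom' : ∀ a b : Γ, b ∈ N → a * b * a⁻¹ * b⁻¹ ∈ N := by
    intro a b hb
    exact N.mul_mem (hN.conj_mem _ hb _) (N.inv_mem hb)
  have hT1 : ∀ c : O, TT i j hij (2 * c) ∈ N := by
    intro c
    have h3 := hcom z (TT i j hij (-c)) hz
    have hzz : z.1.1 * z.1.1 = 1 := by
      rw [hzε, Matrix.diagonal_mul_diagonal, ← Matrix.diagonal_one]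
      congr 1
      funext a
      rcases hε a with h | h <;> rw [h] <;> simp
    have hzi : z⁻¹.1.1 = diagonal ε := by
      have h5 : z⁻¹ = z := by
        apply inv_eq_of_mul_eq_one_right
        exact Subtype.ext (Units.ext hzz)
      rw [h5, hzε]
    have h4 : z * TT i j hij (-c) * z⁻¹ * (TT i j hij (-c))⁻¹ = TT i j hij (2 * c) := by
      rw [mul_inv_eq_iff_eq_mul]
      apply Subtype.ext
      apply Units.ext
      change z.1.1 * (te i j hij (-c)).1 * z⁻¹.1.1 = (te i j hij (2 * c)).1 * (te i j hij (-c)).1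
      rw [hzi, hzε, te_val, te_val, mul_add, mul_one, add_mul, Matrix.diagonal_mul_diagonal]
      have e1 : (diagonal fun a => ε a * ε a) = (1 : Matrix (Fin n) (Fin n) O) := by
        rw [← Matrix.diagonal_one]
        congr 1
        funext a
        rcases hε a with h | h <;> rw [h] <;> simp
      have e2 : diagonal ε * single i j (-c) * diagonal ε = single i j c := by
        ext a b
        rw [Matrix.mul_diagonal, Matrix.diagonal_mul, Matrix.single_apply, Matrix.single_apply]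
        split_ifs with h
        · obtain ⟨rfl, rfl⟩ := h
          rw [hi, hj]
          simp
        · simp
      have e3 : (1 + single i j (2 * c)) * (1 + single i j (-c)) =
          (1 : Matrix (Fin n) (Fin n) O) + single i j c := by
        rw [mul_add, mul_one, add_mul, one_mul]
        have h6 : (single i j (2 * c) : Matrix (Fin n) (Fin n) O) * single i j (-c) = 0 := by
          simp [hij.symm]
        rw [h6, add_zero, add_assoc, ← Matrix.single_add]
        congr 2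
        rw [two_mul]
        abel
      rw [e1, e2, e3]
    rw [← h4]
    exact h3
  let P : Fin n → Fin n → Prop := fun k l => ∀ (h : k ≠ l) (b : O), TT k l h (2 * b) ∈ N
  have hr : ∀ a b c, a ≠ b → b ≠ c → a ≠ c → P a b → P a c := by
    intro a b c hab hbc hac hP _ y
    have h3 := hTc a b c hab hbc hac (2 * y) 1
    rw [mul_one] at h3
    rw [← h3]
    exact hcom _ _ (hP hab y)
  have hl : ∀ a b c, a ≠ b → b ≠ c → a ≠ c → P b c → P a c := by
    intro a b c hab hbc hac hP _ y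
    have h3 := hTc a b c hab hbc hac 1 (2 * y)
    rw [one_mul] at h3
    rw [← h3]
    exact hcom' _ _ (hP hbc y)
  have hP0 : P i j := fun _ b => hT1 b
  have hA : ∀ k l, k ≠ j → k ≠ l → P k l := by
    intro k l hkj hkl
    have h3 : P k j := by
      by_cases hki : k = i
      · rw [hki]; exact hP0
      · exact hl k i j hki hij hkj hP0
    by_cases hlj : l = j
    · rw [hlj]; exact h3
    · exact hr k j l hkj (fun e => hlj e.symm) hkl h3
  have hB : ∀ k l, k ≠ l → P k l := by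
    intro k l hkl
    by_cases hkj : k = j
    · subst hkj
      obtain ⟨s, hs1, hs2⟩ : ∃ s : Fin n, s ≠ k ∧ s ≠ l := by
        have h3 : ({k, l} : Finset (Fin n)).card < Fintype.card (Fin n) := by
          rw [Fintype.card_fin]
          exact lt_of_le_of_lt Finset.card_le_two (by omega)
        obtain ⟨s, hs⟩ : ∃ s, s ∉ ({k, l} : Finset (Fin n)) := by
          by_contra h4
          push Not at h4
          have h5 := Finset.card_le_card (fun s _ => h4 s :
            (Finset.univ : Finset (Fin n)) ⊆ {k, l})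
          rw [Finset.card_univ] at h5
          omega
        simp only [Finset.mem_insert, Finset.mem_singleton, not_or] at hs
        exact ⟨s, hs.1, hs.2⟩
      exact hl k s l hs1.symm hs2 hkl (hA s l hs1 hs2)
    · exact hA k l hkj hkl
  have hEE : E2 O n ≤ N.map Γ.subtype := by
    unfold E2
    rw [Subgroup.closure_le]
    rintro y ⟨h, k, l, b, hh, hkl, hy⟩
    refine ⟨⟨h, hΓ hh⟩ * TT k l hkl (2 * b) * ⟨h, hΓ hh⟩⁻¹, hN.conj_mem _ (hB k l hkl hkl b) _, ?_⟩
    apply Units.ext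
    rw [hy, ← te_val k l hkl]
    rfl
  obtain ⟨y, hy, hyx⟩ := hEE hx
  have : y = x := Subtype.ext hyx
  rw [← this]
  exact hy

/-- the cyclic group of order four -/
def C4 (i : Oˣ) (hi : i * i = -1) : Subgroup Oˣ where
  carrier := {1, -1, i, -i}
  one_mem' := by simp
  mul_mem' := by
    intro x y hx hy
    simp only [Set.mem_insert_iff, Set.mem_singleton_iff] at hx hy ⊢
    rcases hx with rfl | rfl | rfl | rfl <;> rcases hy with rfl | rfl | rfl | rfl <;> simp [hi]
  inv_mem' := by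
    intro x hx
    have h1 : i⁻¹ = -i := by
      apply inv_eq_of_mul_eq_one_right
      rw [mul_neg, hi, neg_neg]
    have h2 : (-i)⁻¹ = i := by
      apply inv_eq_of_mul_eq_one_right
      rw [neg_mul, hi, neg_neg]
    have h3 : (-1 : Oˣ)⁻¹ = -1 := by
      apply inv_eq_of_mul_eq_one_right
      simp
    simp only [Set.mem_insert_iff, Set.mem_singleton_iff] at hx ⊢
    rcases hx with rfl | rfl | rfl | rfl <;> simp [h1, h2, h3]

/-- the quaternion group -/
def H8 (i j : Oˣ) (hi : i * i = -1) (hj : j * j = -1) (hij : i * j = -(j * i)) : Subgroup Oˣ where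
  carrier := {1, -1, i, -i, j, -j, i * j, -(i * j)}
  one_mem' := by simp
  mul_mem' := by
    intro x y hx hy
    have hji : j * i = -(i * j) := by rw [hij, neg_neg]
    have hi' : ∀ x, i * (i * x) = -x := fun x => by rw [← mul_assoc, hi, neg_one_mul]
    have hj' : ∀ x, j * (j * x) = -x := fun x => by rw [← mul_assoc, hj, neg_one_mul]
    have hji' : ∀ x, j * (i * x) = -(i * (j * x)) := fun x => by
      rw [← mul_assoc, hji, neg_mul, mul_assoc]
    simp only [Set.mem_insert_iff, Set.mem_singleton_iff] at hx hy ⊢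
    rcases hx with rfl | rfl | rfl | rfl | rfl | rfl | rfl | rfl <;>
      rcases hy with rfl | rfl | rfl | rfl | rfl | rfl | rfl | rfl <;>
      simp [hi, hj, hji, hi', hj', hji', mul_assoc]
  inv_mem' := by
    intro x hx
    have hji : j * i = -(i * j) := by rw [hij, neg_neg]
    have hi' : ∀ x, i * (i * x) = -x := fun x => by rw [← mul_assoc, hi, neg_one_mul]
    have hj' : ∀ x, j * (j * x) = -x := fun x => by rw [← mul_assoc, hj, neg_one_mul]
    have hji' : ∀ x, j * (i * x) = -(i * (j * x)) := fun x => by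
      rw [← mul_assoc, hji, neg_mul, mul_assoc]
    have h0 : ∀ x : Oˣ, x * x = -1 → x⁻¹ = -x := fun x hx => by
      apply inv_eq_of_mul_eq_one_right
      rw [mul_neg, hx, neg_neg]
    have h1 := h0 i hi
    have h2 := h0 j hj
    have h3 := h0 (-i) (by rw [neg_mul_neg, hi])
    have h4 := h0 (-j) (by rw [neg_mul_neg, hj])
    have hk : (i * j) * (i * j) = -1 := by
      rw [mul_assoc, hji', hj, mul_neg, hi', neg_neg]
    have h5 := h0 (i * j) hk
    have h6 := h0 (-(i * j)) (by rw [neg_mul_neg, hk])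
    have h7 : (-1 : Oˣ)⁻¹ = -1 := by
      apply inv_eq_of_mul_eq_one_right
      simp
    simp only [Set.mem_insert_iff, Set.mem_singleton_iff] at hx ⊢
    rcases hx with rfl | rfl | rfl | rfl | rfl | rfl | rfl | rfl
    · simp
    · rw [h7]; simp
    · rw [h1]; simp
    · rw [h3]; simp
    · rw [h2]; simp
    · rw [h4]; simp
    · rw [h5]; simp
    · rw [h6]; simp

theorem C4_finite (i : Oˣ) (hi : i * i = -1) : Finite (C4 i hi) :=
  (Set.toFinite ({1, -1, i, -i} : Set Oˣ)).to_subtype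

theorem H8_finite (i j : Oˣ) (hi : i * i = -1) (hj : j * j = -1) (hij : i * j = -(j * i)) :
    Finite (H8 i j hi hj hij) :=
  (Set.toFinite ({1, -1, i, -i, j, -j, i * j, -(i * j)} : Set Oˣ)).to_subtype

theorem C4_four (i : Oˣ) (hi : i * i = -1) (u : Oˣ) (hu : u ∈ C4 i hi) : u ^ 4 = 1 := by
  have h1 : u ^ 4 = (u * u) * (u * u) := by rw [← pow_two, ← pow_two, ← pow_mul]
  have h2 : u = 1 ∨ u = -1 ∨ u = i ∨ u = -i := hu
  rw [h1]
  rcases h2 with rfl | rfl | rfl | rfl <;> simp [hi]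

theorem H8_four (i j : Oˣ) (hi : i * i = -1) (hj : j * j = -1) (hij : i * j = -(j * i)) (u : Oˣ)
    (hu : u ∈ H8 i j hi hj hij) : u ^ 4 = 1 := by
  have h1 : u ^ 4 = (u * u) * (u * u) := by rw [← pow_two, ← pow_two, ← pow_mul]
  have h2 : u = 1 ∨ u = -1 ∨ u = i ∨ u = -i ∨ u = j ∨ u = -j ∨ u = i * j ∨ u = -(i * j) := hu
  have hji : j * i = -(i * j) := by rw [hij, neg_neg]
  have hi' : ∀ x, i * (i * x) = -x := fun x => by rw [← mul_assoc, hi, neg_one_mul]
  have hji' : ∀ x, j * (i * x) = -(i * (j * x)) := fun x => by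
    rw [← mul_assoc, hji, neg_mul, mul_assoc]
  have hk : (i * j) * (i * j) = -1 := by
    rw [mul_assoc, hji', hj, mul_neg, hi', neg_neg]
  rw [h1]
  rcases h2 with rfl | rfl | rfl | rfl | rfl | rfl | rfl | rfl
  · simp
  · simp
  · simp [hi]
  · simp [hi]
  · simp [hj]
  · simp [hj]
  · rw [hk]; simp
  · rw [neg_mul_neg, hk]; simp

/-- the unit with square `-1` -/
def un (i : O) (hi : i * i = -1) : Oˣ where
  val := i
  inv := -i
  val_inv := by rw [mul_neg, hi, neg_neg]
  inv_val := by rw [neg_mul, hi, neg_neg]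

theorem un_sq (i : O) (hi : i * i = -1) : un i hi * un i hi = -1 := Units.ext hi

theorem mem4 (i : O) (hi : i * i = -1) (u : O) :
    u ∈ ({1, -1, i, -i} : Set O) ↔ ∃ v ∈ C4 (un i hi) (un_sq i hi), (v : O) = u := by
  constructor
  · rintro (rfl | rfl | rfl | rfl)
    · exact ⟨1, Or.inl rfl, rfl⟩
    · exact ⟨-1, Or.inr (Or.inl rfl), rfl⟩
    · exact ⟨un u hi, Or.inr (Or.inr (Or.inl rfl)), rfl⟩
    · exact ⟨-un i hi, Or.inr (Or.inr (Or.inr rfl)), rfl⟩
  · rintro ⟨v, rfl | rfl | rfl | rfl, rfl⟩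
    · exact Or.inl rfl
    · exact Or.inr (Or.inl rfl)
    · exact Or.inr (Or.inr (Or.inl rfl))
    · exact Or.inr (Or.inr (Or.inr rfl))

theorem mem8 (i j : O) (hi : i * i = -1) (hj : j * j = -1) (hij : i * j = -(j * i)) (u : O) :
    u ∈ ({1, -1, i, -i, j, -j, i * j, -(i * j)} : Set O) ↔
    ∃ v ∈ H8 (un i hi) (un j hj) (un_sq i hi) (un_sq j hj) (Units.ext hij), (v : O) = u := by
  constructor
  · rintro (h | h | h | h | h | h | h | h)
    · exact ⟨1, Or.inl rfl, h.symm⟩
    · exact ⟨-1, Or.inr (Or.inl rfl), h.symm⟩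
    · exact ⟨un i hi, Or.inr (Or.inr (Or.inl rfl)), h.symm⟩
    · exact ⟨-un i hi, Or.inr (Or.inr (Or.inr (Or.inl rfl))), h.symm⟩
    · exact ⟨un j hj, Or.inr (Or.inr (Or.inr (Or.inr (Or.inl rfl)))), h.symm⟩
    · exact ⟨-un j hj, Or.inr (Or.inr (Or.inr (Or.inr (Or.inr (Or.inl rfl))))), h.symm⟩
    · exact ⟨un i hi * un j hj,
        Or.inr (Or.inr (Or.inr (Or.inr (Or.inr (Or.inr (Or.inl rfl)))))), h.symm⟩
    · exact ⟨-(un i hi * un j hj),
        Or.inr (Or.inr (Or.inr (Or.inr (Or.inr (Or.inr (Or.inr rfl)))))), h.symm⟩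
  · rintro ⟨v, h | h | h | h | h | h | h | h, rfl⟩
    · exact Or.inl (by rw [h]; rfl)
    · exact Or.inr (Or.inl (by rw [h]; rfl))
    · exact Or.inr (Or.inr (Or.inl (by rw [h]; rfl)))
    · exact Or.inr (Or.inr (Or.inr (Or.inl (by rw [h]; rfl))))
    · exact Or.inr (Or.inr (Or.inr (Or.inr (Or.inl (by rw [h]; rfl)))))
    · exact Or.inr (Or.inr (Or.inr (Or.inr (Or.inr (Or.inl (by rw [h]; rfl))))))
    · exact Or.inr (Or.inr (Or.inr (Or.inr (Or.inr (Or.inr (Or.inl (by rw [h]; rfl)))))))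
    · exact Or.inr (Or.inr (Or.inr (Or.inr (Or.inr (Or.inr (Or.inr (by rw [h]; rfl)))))))

theorem fin_end [Module.Finite ℤ O] (h20 : (2 : O) ≠ 0) (hn : 3 ≤ n) (μ : Subgroup Oˣ) [Finite μ]
    (S : Set O) (hS : ∀ u : O, u ∈ S ↔ ∃ v ∈ μ, (v : O) = u) (M : Type) [MulAction (Gam O S n) M]
    (h : NS (Gam O S n) M) :
    (∀ g : Gam O S n, g.1 ∈ E2 O n → ∀ y : M, g • y = y) ∧
      Finite (MulAction.toPermHom (Gam O S n) M).range := by
  obtain ⟨z, ε, hzε, hε, ⟨a, ha⟩, ⟨b, hb⟩, hz⟩ := h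
  by_cases hab : a = b
  · -- then `1 = -1`, so the matrices of level two are trivial
    subst hab
    have h1 : (1 : O) = -1 := ha.symm.trans hb
    exfalso
    apply h20
    rw [← one_add_one_eq_two]
    nth_rewrite 1 [h1]
    exact neg_add_cancel 1
  have hE : Eg O n ≤ Gam O S n := by
    rw [Gam_eq μ S hS]
    exact le_sup_left
  set N := (MulAction.toPermHom (Gam O S n) M).ker with hN
  have hmem : ∀ g : Gam O S n, g ∈ N ↔ ∀ y : M, g • y = y := by
    intro g
    rw [hN, MonoidHom.mem_ker]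
    constructor
    · intro h y
      exact congrArg (fun f : Equiv.Perm M => f y) h
    · intro h
      exact Equiv.ext h
  have h1 : ∀ g : Gam O S n, g.1 ∈ E2 O n → g ∈ N := fun g hg =>
    lvl hn (Gam O S n) hE N inferInstance z ((hmem z).2 hz) ε hzε hε a b ha hb hab g hg
  refine ⟨fun g hg => (hmem g).1 (h1 g hg), ?_⟩
  obtain ⟨m, rfl⟩ : ∃ m, n = m + 3 := ⟨n - 3, by omega⟩
  exact finG μ (Gam O S (m + 3)) (Gam_eq μ S hS) (MulAction.toPermHom (Gam O S (m + 3)) M)
    (fun x hx => h1 x hx)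

theorem main [Module.Finite ℤ O] (h2 : (2 : O) ≠ 0) (hn : 3 ≤ n) (k : ℕ)
    (E M : Type) [NormedAddCommGroup E] [NormedSpace ℝ E] [FiniteDimensional ℝ E] (S : Set O)
    (hS : (∃ i : O, i * i = -1 ∧ S = {1, -1, i, -i} ∧ Module.finrank ℝ E + 2 * k < 2 * (n - 1)) ∨
      ∃ i j : O, i * i = -1 ∧ j * j = -1 ∧ i * j = -(j * i) ∧
        S = {1, -1, i, -i, j, -j, i * j, -(i * j)} ∧ Module.finrank ℝ E + 8 * k < 4 * (n - 1))
    [TopologicalSpace M] [T2Space M] [ConnectedSpace M] [ChartedSpace E M]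
    [IsManifold 𝓘(ℝ, E) 1 M] [MulAction (Gam O S n) M]
    (hsm : ∀ g : Gam O S n, ContMDiff 𝓘(ℝ, E) 𝓘(ℝ, E) 1 (fun y : M => g • y))
    (h : (∃ x : M, (MulAction.orbit (DD (Gam O S n) S) x).ncard ≤ 2 ^ k) ∨
      ∃ T : Tri (DD (Gam O S n) S) M, ¬ (2 : ℤ) ^ (k + 1) ∣ T.chi) :
    (∀ g : Gam O S n, g.1 ∈ E2 O n → ∀ y : M, g • y = y) ∧
      Finite (MulAction.toPermHom (Gam O S n) M).range := by
  rcases hS with ⟨i, hi, hS, hd⟩ | ⟨i, j, hi, hj, hij, hS, hd⟩
  · have hfin := C4_finite (un i hi) (un_sq i hi)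
    have hmem : ∀ u : O, u ∈ S ↔ ∃ v ∈ C4 (un i hi) (un_sq i hi), (v : O) = u := by
      rw [hS]
      exact mem4 i hi
    refine fin_end h2 hn (C4 (un i hi) (un_sq i hi)) S hmem M ?_
    have h1 := kerM h2 (Gam O S n) (C4 (un i hi) (un_sq i hi)) (C4_four _ _)
      (fun w hw => Subgroup.subset_closure (Or.inr ⟨fun a => (w a : O),
        fun a => (hmem _).2 ⟨w a, hw a, rfl⟩, rfl⟩)) (Or.inr (Or.inl rfl)) S hmem E M hsm k h
    exact h1.2.1 (un i hi) (Or.inr (Or.inr (Or.inl rfl))) (un_sq i hi) (by omega)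
  · have hfin := H8_finite (un i hi) (un j hj) (un_sq i hi) (un_sq j hj) (Units.ext hij)
    have hmem : ∀ u : O, u ∈ S ↔
        ∃ v ∈ H8 (un i hi) (un j hj) (un_sq i hi) (un_sq j hj) (Units.ext hij), (v : O) = u := by
      rw [hS]
      exact mem8 i j hi hj hij
    refine fin_end h2 hn (H8 (un i hi) (un j hj) (un_sq i hi) (un_sq j hj) (Units.ext hij))
      S hmem M ?_
    have h1 := kerM h2 (Gam O S n)
      (H8 (un i hi) (un j hj) (un_sq i hi) (un_sq j hj) (Units.ext hij)) (H8_four _ _ _ _ _)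
      (fun w hw => Subgroup.subset_closure (Or.inr ⟨fun a => (w a : O),
        fun a => (hmem _).2 ⟨w a, hw a, rfl⟩, rfl⟩)) (Or.inr (Or.inl rfl)) S hmem E M hsm k h
    exact h1.2.2 (un i hi) (Or.inr (Or.inr (Or.inl rfl))) (un j hj)
      (Or.inr (Or.inr (Or.inr (Or.inr (Or.inl rfl))))) (un_sq i hi) (un_sq j hj) (Units.ext hij)
      (by omega)

end

end Q23.ZQ
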