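import Pool.Agent.Q23.ZQ.Sr

/-!
# Reduction of a column congruent to the first unit vector modulo two
-/

open Matrix

namespace Q23.ZQ

/-- the group generated by the elementary matrices -/
def Eg (O : Type) [Ring O] (n : ℕ) : Subgroup (GL (Fin n) O) :=
  Subgroup.closure {x | ∃ (a b : Fin n) (c : O), a ≠ b ∧ x.1 = 1 + Matrix.single a b c}

/-- the normal subgroup of `Eg` generated by the elementary matrices congruent to `1` modulo `2` -/
def E2 (O : Type) [Ring O] (n : ℕ) : Subgroup (GL (Fin n) O) :=
  Subgroup.closure {x | ∃ (h : GL (Fin n) O) (a b : Fin n) (c : O), h ∈ Eg O n ∧ a ≠ b ∧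
    x.1 = h.1 * (1 + Matrix.single a b (2 * c)) * h⁻¹.1}

section

variable {O : Type} [Ring O] {n : ℕ}

/-- row transvections -/
def rv (a : Fin n) (t : Fin n → O) (ht : t a = 0) : GL (Fin n) O where
  val := 1 + vecMulVec (Pi.single a 1) t
  inv := 1 + vecMulVec (Pi.single a 1) (-t)
  val_inv := by
    rw [mul_add, add_mul, add_mul, vecMulVec_mul_vecMulVec, dotProduct_single, ht, zero_mul,
      zero_smul, vecMulVec_zero, vecMulVec_neg]
    simp
  inv_val := by
    rw [mul_add, add_mul, add_mul, vecMulVec_mul_vecMulVec, dotProduct_single, Pi.neg_apply, ht,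
      neg_zero, zero_mul, zero_smul, vecMulVec_zero, vecMulVec_neg]
    simp

/-- column transvections -/
def cv (a : Fin n) (t : Fin n → O) (ht : t a = 0) : GL (Fin n) O where
  val := 1 + vecMulVec t (Pi.single a 1)
  inv := 1 + vecMulVec (-t) (Pi.single a 1)
  val_inv := by
    rw [mul_add, add_mul, add_mul, vecMulVec_mul_vecMulVec, single_dotProduct, Pi.neg_apply, ht,
      neg_zero, mul_zero, zero_smul, vecMulVec_zero, neg_vecMulVec]
    simp
  inv_val := by
    rw [mul_add, add_mul, add_mul, vecMulVec_mul_vecMulVec, single_dotProduct, ht, mul_zero,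
      zero_smul, vecMulVec_zero, neg_vecMulVec]
    simp

theorem rv_mul (a : Fin n) (t : Fin n → O) (ht : t a = 0) (g : GL (Fin n) O) (i j : Fin n) :
    (rv a t ht * g).1 i j = g.1 i j + if i = a then ∑ d, t d * g.1 d j else 0 := by
  change ((1 + vecMulVec (Pi.single a 1) t) * g.1) i j = _
  rw [add_mul, one_mul, Matrix.add_apply, vecMulVec_mul, vecMulVec_apply, Pi.single_apply]
  split_ifs
  · rw [one_mul]
    rfl
  · rw [zero_mul]

theorem mul_rv (a : Fin n) (t : Fin n → O) (ht : t a = 0) (g : GL (Fin n) O) (i j : Fin n) :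
    (g * rv a t ht).1 i j = g.1 i j + g.1 i a * t j := by
  change (g.1 * (1 + vecMulVec (Pi.single a 1) t)) i j = _
  rw [mul_add, mul_one, Matrix.add_apply, mul_vecMulVec, vecMulVec_apply, mulVec_single_one]
  rfl

theorem cv_mul (a : Fin n) (t : Fin n → O) (ht : t a = 0) (g : GL (Fin n) O) (i j : Fin n) :
    (cv a t ht * g).1 i j = g.1 i j + t i * g.1 a j := by
  change ((1 + vecMulVec t (Pi.single a 1)) * g.1) i j = _
  rw [add_mul, one_mul, Matrix.add_apply, vecMulVec_mul, vecMulVec_apply, single_one_vecMul]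
  rfl

theorem rv_inv (a : Fin n) (t : Fin n → O) (ht : t a = 0) :
    (rv a t ht)⁻¹ = rv a (-t) (by rw [Pi.neg_apply, ht, neg_zero]) := by
  apply inv_eq_of_mul_eq_one_right
  apply Units.ext
  exact (rv a t ht).val_inv

theorem rv_add (a : Fin n) (t s : Fin n → O) (ht : t a = 0) (hs : s a = 0) :
    rv a (t + s) (by rw [Pi.add_apply, ht, hs, add_zero]) = rv a t ht * rv a s hs := by
  apply Units.ext
  change 1 + vecMulVec (Pi.single a 1) (t + s) =
    (1 + vecMulVec (Pi.single a 1) t) * (1 + vecMulVec (Pi.single a 1) s)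
  rw [mul_add, add_mul, add_mul, vecMulVec_mul_vecMulVec, dotProduct_single, ht, zero_mul,
    zero_smul, vecMulVec_zero, vecMulVec_add]
  simp [add_assoc]

theorem cv_add (a : Fin n) (t s : Fin n → O) (ht : t a = 0) (hs : s a = 0) :
    cv a (t + s) (by rw [Pi.add_apply, ht, hs, add_zero]) = cv a t ht * cv a s hs := by
  apply Units.ext
  change 1 + vecMulVec (t + s) (Pi.single a 1) =
    (1 + vecMulVec t (Pi.single a 1)) * (1 + vecMulVec s (Pi.single a 1))
  rw [mul_add, add_mul, add_mul, vecMulVec_mul_vecMulVec, single_dotProduct, hs, mul_zero,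
    zero_smul, vecMulVec_zero, add_vecMulVec]
  simp [add_assoc]

/-- elementary matrices -/
def te (a b : Fin n) (h : a ≠ b) (c : O) : GL (Fin n) O :=
  rv a (Pi.single b c) (by rw [Pi.single_eq_of_ne h])

theorem te_val (a b : Fin n) (h : a ≠ b) (c : O) : (te a b h c).1 = 1 + single a b c := by
  change 1 + vecMulVec (Pi.single a 1) (Pi.single b c) = _
  congr 1
  ext x y
  rw [vecMulVec_apply, Matrix.single_apply, Pi.single_apply, Pi.single_apply]
  by_cases h1 : x = a
  · by_cases h2 : y = b
    · simp [h1, h2]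
    · simp [h1, h2, Ne.symm h2]
  · simp [h1, Ne.symm h1]

theorem cv_te (a b : Fin n) (h : a ≠ b) (c : O) :
    cv b (Pi.single a c) (by rw [Pi.single_eq_of_ne h.symm]) = te a b h c := by
  apply Units.ext
  rw [te_val]
  change 1 + vecMulVec (Pi.single a c) (Pi.single b 1) = _
  congr 1
  ext x y
  rw [vecMulVec_apply, Matrix.single_apply, Pi.single_apply, Pi.single_apply]
  by_cases h1 : x = a
  · by_cases h2 : y = b
    · simp [h1, h2]
    · simp [h1, h2, Ne.symm h2]
  · simp [h1, Ne.symm h1]

theorem te_mem (a b : Fin n) (h : a ≠ b) (c : O) : te a b h c ∈ Eg O n :=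
  Subgroup.subset_closure ⟨a, b, c, h, te_val a b h c⟩

theorem te_mem2 (a b : Fin n) (h : a ≠ b) (c : O) : te a b h (2 * c) ∈ E2 O n :=
  Subgroup.subset_closure ⟨1, a, b, c, Subgroup.one_mem _, h, by rw [te_val]; simp⟩

/-- a row transvection is a product of elementary matrices -/
theorem rv_mem_of (H : Subgroup (GL (Fin n) O)) (I : Set O)
    (hH : ∀ (a b : Fin n) (h : a ≠ b) (c : O), c ∈ I → te a b h c ∈ H) (a : Fin n)
    (S : Finset (Fin n)) : ∀ (t : Fin n → O) (ht : t a = 0), (∀ b, t b ∈ I) →
      (∀ b, b ∉ S → t b = 0) → rv a t ht ∈ H := by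
  classical
  induction S using Finset.induction_on with
  | empty =>
    intro t ht _ h0
    have : t = 0 := funext fun b => h0 b (Finset.notMem_empty b)
    subst this
    have : rv a (0 : Fin n → O) ht = 1 := by
      apply Units.ext
      change 1 + vecMulVec (Pi.single a 1) 0 = 1
      rw [vecMulVec_zero, add_zero]
    rw [this]
    exact H.one_mem
  | insert s S hs ih =>
    intro t ht hI h0
    by_cases hsa : s = a
    · subst hsa
      refine ih t ht hI fun b hb => ?_
      by_cases hbs : b = s
      · rw [hbs, ht]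
      · exact h0 b fun h => (Finset.mem_insert.1 h).elim hbs hb
    · by_cases hI0 : (0 : O) ∈ I
      · have e : t = Function.update t s 0 + Pi.single s (t s) := by
          funext b
          by_cases hbs : b = s
          · subst hbs
            simp
          · simp [hbs]
        have h1 : Function.update t s 0 a = 0 := by
          rw [Function.update_of_ne (Ne.symm hsa), ht]
        have h2 : (Pi.single s (t s) : Fin n → O) a = 0 := Pi.single_eq_of_ne (Ne.symm hsa) _
        have e2 : rv a t ht = rv a (Function.update t s 0) h1 * rv a (Pi.single s (t s)) h2 := by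
          rw [← rv_add]
          congr 1
        rw [e2]
        refine H.mul_mem (ih _ h1 (fun b => ?_) fun b hb => ?_) (hH a s (Ne.symm hsa) _ (hI s))
        · by_cases hbs : b = s
          · subst hbs
            simpa using hI0
          · rw [Function.update_of_ne hbs]
            exact hI b
        · by_cases hbs : b = s
          · subst hbs
            simp
          · rw [Function.update_of_ne hbs]
            exact h0 b fun h => (Finset.mem_insert.1 h).elim hbs hb
      · exact absurd (ht ▸ hI a) hI0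

theorem cv_mem_of (H : Subgroup (GL (Fin n) O)) (I : Set O)
    (hH : ∀ (a b : Fin n) (h : a ≠ b) (c : O), c ∈ I → te a b h c ∈ H) (a : Fin n)
    (S : Finset (Fin n)) : ∀ (t : Fin n → O) (ht : t a = 0), (∀ b, t b ∈ I) →
      (∀ b, b ∉ S → t b = 0) → cv a t ht ∈ H := by
  classical
  induction S using Finset.induction_on with
  | empty =>
    intro t ht _ h0
    have : t = 0 := funext fun b => h0 b (Finset.notMem_empty b)
    subst this
    have : cv a (0 : Fin n → O) ht = 1 := by
      apply Units.ext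
      change 1 + vecMulVec 0 (Pi.single a 1) = 1
      rw [zero_vecMulVec, add_zero]
    rw [this]
    exact H.one_mem
  | insert s S hs ih =>
    intro t ht hI h0
    by_cases hsa : s = a
    · subst hsa
      refine ih t ht hI fun b hb => ?_
      by_cases hbs : b = s
      · rw [hbs, ht]
      · exact h0 b fun h => (Finset.mem_insert.1 h).elim hbs hb
    · by_cases hI0 : (0 : O) ∈ I
      · have e : t = Function.update t s 0 + Pi.single s (t s) := by
          funext b
          by_cases hbs : b = s
          · subst hbs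
            simp
          · simp [hbs]
        have h1 : Function.update t s 0 a = 0 := by
          rw [Function.update_of_ne (Ne.symm hsa), ht]
        have h2 : (Pi.single s (t s) : Fin n → O) a = 0 := Pi.single_eq_of_ne (Ne.symm hsa) _
        have e2 : cv a t ht = cv a (Function.update t s 0) h1 * cv a (Pi.single s (t s)) h2 := by
          rw [← cv_add]
          congr 1
        rw [e2]
        refine H.mul_mem (ih _ h1 (fun b => ?_) fun b hb => ?_) ?_
        · by_cases hbs : b = s
          · subst hbs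
            simpa using hI0
          · rw [Function.update_of_ne hbs]
            exact hI b
        · by_cases hbs : b = s
          · subst hbs
            simp
          · rw [Function.update_of_ne hbs]
            exact h0 b fun h => (Finset.mem_insert.1 h).elim hbs hb
        · rw [cv_te s a hsa]
          exact hH s a hsa _ (hI s)
      · exact absurd (ht ▸ hI a) hI0

theorem rv_mem (a : Fin n) (t : Fin n → O) (ht : t a = 0) : rv a t ht ∈ Eg O n :=
  rv_mem_of (Eg O n) Set.univ (fun a b h c _ => te_mem a b h c) a Finset.univ t ht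
    (fun _ => Set.mem_univ _) fun b hb => absurd (Finset.mem_univ b) hb

theorem rv_mem2 (a : Fin n) (t : Fin n → O) (ht : t a = 0) (h2 : ∀ b, ∃ c, t b = 2 * c) :
    rv a t ht ∈ E2 O n :=
  rv_mem_of (E2 O n) {d | ∃ c, d = 2 * c} (fun a b h c ⟨d, hd⟩ => by
    rw [hd]
    exact te_mem2 a b h d) a Finset.univ t ht h2 fun b hb => absurd (Finset.mem_univ b) hb

theorem cv_mem2 (a : Fin n) (t : Fin n → O) (ht : t a = 0) (h2 : ∀ b, ∃ c, t b = 2 * c) :
    cv a t ht ∈ E2 O n :=
  cv_mem_of (E2 O n) {d | ∃ c, d = 2 * c} (fun a b h c ⟨d, hd⟩ => by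
    rw [hd]
    exact te_mem2 a b h d) a Finset.univ t ht h2 fun b hb => absurd (Finset.mem_univ b) hb

theorem E2_conj (g x : GL (Fin n) O) (hg : g ∈ Eg O n) (hx : x ∈ E2 O n) :
    g * x * g⁻¹ ∈ E2 O n := by
  unfold E2 at hx
  refine Subgroup.closure_induction (p := fun x _ => g * x * g⁻¹ ∈ E2 O n) ?_ ?_ ?_ ?_ hx
  · rintro x ⟨h, a, b, c, hh, hab, e⟩
    refine Subgroup.subset_closure ⟨g * h, a, b, c, Subgroup.mul_mem _ hg hh, hab, ?_⟩
    rw [Units.val_mul, Units.val_mul, e, _root_.mul_inv_rev, Units.val_mul, Units.val_mul]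
    simp only [mul_assoc]
  · rw [mul_one, mul_inv_cancel]
    exact Subgroup.one_mem _
  · intro x y _ _ h1 h2
    have : g * (x * y) * g⁻¹ = (g * x * g⁻¹) * (g * y * g⁻¹) := by group
    rw [this]
    exact Subgroup.mul_mem _ h1 h2
  · intro x _ h1
    have : g * x⁻¹ * g⁻¹ = (g * x * g⁻¹)⁻¹ := by group
    rw [this]
    exact Subgroup.inv_mem _ h1

theorem E2_le : E2 O n ≤ Eg O n := by
  unfold E2
  rw [Subgroup.closure_le]
  rintro x ⟨h, a, b, c, hh, hab, e⟩
  have e2 : x = h * te a b hab (2 * c) * h⁻¹ := by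
    apply Units.ext
    rw [e, Units.val_mul, Units.val_mul, te_val]
  rw [e2]
  exact Subgroup.mul_mem _ (Subgroup.mul_mem _ hh (te_mem a b hab _)) (Subgroup.inv_mem _ hh)

/-- matrices congruent to `1` modulo `2` -/
def C2 (O : Type) [Ring O] (n : ℕ) : Subgroup (GL (Fin n) O) where
  carrier := {g | ∃ X : Matrix (Fin n) (Fin n) O, g.1 = 1 + (2 : ℕ) • X}
  one_mem' := ⟨0, by simp⟩
  mul_mem' := by
    rintro g h ⟨X, hX⟩ ⟨Y, hY⟩
    refine ⟨X + Y + (2 : ℕ) • (X * Y), ?_⟩
    rw [Units.val_mul, hX, hY]
    simp only [nsmul_eq_mul, Nat.cast_ofNat]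
    noncomm_ring
  inv_mem' := by
    rintro g ⟨X, hX⟩
    refine ⟨-(X * g⁻¹.1), ?_⟩
    have h1 : (1 + (2 : ℕ) • X) * g⁻¹.1 = 1 := by rw [← hX]; exact g.mul_inv
    rw [add_mul, one_mul, smul_mul_assoc] at h1
    rw [smul_neg, ← sub_eq_add_neg, eq_sub_iff_add_eq]
    exact h1

theorem C2_conj (g x : GL (Fin n) O) (hx : x ∈ C2 O n) : g * x * g⁻¹ ∈ C2 O n := by
  obtain ⟨X, hX⟩ := hx
  refine ⟨g.1 * X * g⁻¹.1, ?_⟩
  rw [Units.val_mul, Units.val_mul, hX, mul_add, mul_one, add_mul, ← Units.val_mul g g⁻¹,
    mul_inv_cancel, Units.val_one, mul_smul_comm, smul_mul_assoc]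

theorem E2_le_C2 : E2 O n ≤ C2 O n := by
  unfold E2
  rw [Subgroup.closure_le]
  rintro x ⟨h, a, b, c, hh, hab, e⟩
  have e2 : x = h * te a b hab (2 * c) * h⁻¹ := by
    apply Units.ext
    rw [e, Units.val_mul, Units.val_mul, te_val]
  rw [e2]
  refine C2_conj _ _ ⟨single a b c, ?_⟩
  rw [te_val, Matrix.smul_single, nsmul_eq_mul, Nat.cast_ofNat]

end

end Q23.ZQ
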