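import Mathlib
import Pool.Agent.H842R2.SSCancel

/-!
# Unimodular columns over a ring with finitely generated additive group
-/

namespace Q23.ZQ

theorem sr_fam {R ι : Type} [Ring R] [IsArtinianRing R] [Fintype ι] (a : R) (v : ι → R)
    (h : ∃ (c0 : R) (c : ι → R), c0 * a + ∑ i, c i * v i = 1) :
    ∃ t : ι → R, IsUnit (a + ∑ i, t i * v i) := by
  obtain ⟨c0, c, hc⟩ := h
  have h1 : Submodule.span R {a} ⊔ Submodule.span R (Set.range v) = ⊤ := by
    rw [Ideal.eq_top_iff_one, ← hc]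
    refine Submodule.add_mem_sup (Submodule.mem_span_singleton.2 ⟨c0, rfl⟩) ?_
    exact (Submodule.mem_span_range_iff_exists_fun R).2 ⟨c, rfl⟩
  obtain ⟨j, hj, hu⟩ := H842.sr_one a _ h1
  obtain ⟨t, ht⟩ := (Submodule.mem_span_range_iff_exists_fun R).1 hj
  refine ⟨t, ?_⟩
  rw [← ht] at hu
  exact hu

theorem odd_mem (O : Type) [Ring O] [Module.Finite ℤ O] (y : O) :
    ∃ (r : ℤ) (p : O), r ≠ 0 ∧ (r : O) = p * (1 + 2 * y) := by
  let L : Submodule O O := Submodule.span O {1 + 2 * y}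
  have hfin : Module.Finite ℤ (O ⧸ L) := by
    refine Module.Finite.of_surjective (L.mkQ.toAddMonoidHom.toIntLinearMap) ?_
    exact L.mkQ_surjective
  obtain ⟨r, hr1, hr2⟩ := Submodule.exists_sub_one_mem_and_smul_eq_zero_of_fg_of_le_smul
    (Ideal.span {(2 : ℤ)}) (⊤ : Submodule ℤ (O ⧸ L)) hfin.fg_top (by
      intro z _
      obtain ⟨c, rfl⟩ := L.mkQ_surjective z
      have e : L.mkQ c = (2 : ℤ) • L.mkQ (-(c * y)) := by
        rw [← map_zsmul, ← sub_eq_zero, ← map_sub]
        change L.mkQ _ = 0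
        rw [← LinearMap.mem_ker, Submodule.ker_mkQ]
        refine Submodule.mem_span_singleton.2 ⟨c, ?_⟩
        rw [smul_eq_mul, zsmul_eq_mul]
        push_cast
        have : c * (2 * y) = 2 * (c * y) := by
          rw [← mul_assoc, ← mul_assoc, mul_two, two_mul]
        rw [mul_add, mul_one, this]
        noncomm_ring
      rw [e]
      exact Submodule.smul_mem_smul (Ideal.mem_span_singleton_self 2) Submodule.mem_top)
  have h1 : r • L.mkQ 1 = 0 := hr2 _ Submodule.mem_top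
  rw [← map_zsmul, ← LinearMap.mem_ker, Submodule.ker_mkQ] at h1
  obtain ⟨p, hp⟩ := Submodule.mem_span_singleton.1 h1
  refine ⟨r, p, ?_, ?_⟩
  · rintro rfl
    rw [Ideal.mem_span_singleton] at hr1
    omega
  · rw [← smul_eq_mul, hp, zsmul_eq_mul, mul_one]

theorem two_sided (O : Type) [Ring O] (r : ℤ) : (Ideal.span {(r : O)}).IsTwoSided := by
  refine ⟨fun {a} b ha => ?_⟩
  obtain ⟨d, rfl⟩ := Submodule.mem_span_singleton.1 ha
  refine Submodule.mem_span_singleton.2 ⟨d * b, ?_⟩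
  rw [smul_eq_mul, smul_eq_mul, mul_assoc, mul_assoc, (Int.cast_commute r b).eq]

theorem fin_quot (O : Type) [Ring O] [Module.Finite ℤ O] (r : ℤ) (hr : r ≠ 0) :
    Finite (O ⧸ Ideal.span {(r : O)}) := by
  have hI := two_sided O r
  have h1 : Module.Finite ℤ (O ⧸ Ideal.span {(r : O)}) := by
    refine Module.Finite.of_surjective
      ((Ideal.Quotient.mk (Ideal.span {(r : O)})).toAddMonoidHom.toIntLinearMap) ?_
    exact Ideal.Quotient.mk_surjective
  refine Module.finite_of_fg_torsion _ ?_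
  intro z
  refine ⟨⟨r, mem_nonZeroDivisors_of_ne_zero hr⟩, ?_⟩
  obtain ⟨c, rfl⟩ := Ideal.Quotient.mk_surjective z
  change r • (Ideal.Quotient.mk (Ideal.span {(r : O)}) c) = 0
  rw [← map_zsmul, Ideal.Quotient.eq_zero_iff_mem]
  refine Submodule.mem_span_singleton.2 ⟨c, ?_⟩
  rw [smul_eq_mul, zsmul_eq_mul, (Int.cast_commute r c).eq]

theorem sr_col (O : Type) [Ring O] [Module.Finite ℤ O] (y0 x1 : O) (m : ℕ) (x : Fin m → O)
    (hun : ∃ (c0 c1 : O) (c : Fin m → O), c0 * (1 + 2 * y0) + c1 * x1 + ∑ a, c a * x a = 1) :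
    ∃ (t : Fin m → O) (p q : O), p * (1 + 2 * y0) + q * (x1 + ∑ a, t a * x a) = 1 := by
  obtain ⟨r, p0, hr, hp0⟩ := odd_mem O y0
  obtain ⟨c0, c1, c, hc⟩ := hun
  let I : Ideal O := Ideal.span {(r : O)}
  have hI : I.IsTwoSided := two_sided O r
  have hfin : Finite (O ⧸ I) := fin_quot O r hr
  have hart : IsArtinianRing (O ⧸ I) := inferInstance
  let q := Ideal.Quotient.mk I
  obtain ⟨t, u, hu⟩ := sr_fam (q x1) (fun a : Option (Fin m) => q (a.elim (1 + 2 * y0) x))
    ⟨q c1, fun a => q (a.elim c0 c), by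
      rw [Fintype.sum_option]
      simp only [Option.elim_none, Option.elim_some]
      rw [← map_mul, ← map_mul, ← add_assoc, ← map_add]
      simp only [← map_mul]
      rw [← map_sum, ← map_add, add_comm (c1 * x1), hc, map_one]⟩
  obtain ⟨v, hv⟩ := Ideal.Quotient.mk_surjective (u⁻¹ : (O ⧸ I)ˣ).1
  have ht : ∀ a, ∃ s : O, q s = t a := fun a => Ideal.Quotient.mk_surjective (t a)
  choose s hs using ht
  have h1 : q (v * (x1 + (s none * (1 + 2 * y0) + ∑ a, s (some a) * x a)) - 1) = 0 := by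
    have h2 : q (x1 + (s none * (1 + 2 * y0) + ∑ a, s (some a) * x a)) = u.1 := by
      rw [hu, Fintype.sum_option, map_add, map_add, map_mul, map_sum]
      simp only [map_mul, hs, Option.elim_none, Option.elim_some]
    rw [map_sub, map_mul, h2, map_one]
    change Ideal.Quotient.mk I v * _ - 1 = 0
    rw [hv, Units.inv_mul, sub_self]
  obtain ⟨w, hw⟩ := Submodule.mem_span_singleton.1 (Ideal.Quotient.eq_zero_iff_mem.1 h1)
  rw [smul_eq_mul, hp0] at hw
  refine ⟨fun a => s (some a), v * s none - w * p0, v, ?_⟩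
  have h3 : v * (x1 + (s none * (1 + 2 * y0) + ∑ a, s (some a) * x a)) =
      1 + w * (p0 * (1 + 2 * y0)) := by
    rw [hw]
    abel
  have h4 : v * (x1 + (s none * (1 + 2 * y0) + ∑ a, s (some a) * x a)) =
      v * (x1 + ∑ a, s (some a) * x a) + v * s none * (1 + 2 * y0) := by
    rw [mul_assoc, ← mul_add]
    congr 1
    abel
  rw [h4] at h3
  rw [sub_mul, mul_assoc w]
  calc v * s none * (1 + 2 * y0) - w * (p0 * (1 + 2 * y0)) + v * (x1 + ∑ a, s (some a) * x a)
      = (v * (x1 + ∑ a, s (some a) * x a) + v * s none * (1 + 2 * y0)) -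
        w * (p0 * (1 + 2 * y0)) := by abel
    _ = 1 := by rw [h3]; abel

end Q23.ZQ
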